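import Pool.Agent.Lib.MP_4d09b6_gt.Unknot

section

/-! The homeomorphisms `[0,∞) × [0,∞)^ℕ ≃ ℝ^ℕ`, `ℝ × ℝ^ℕ ≃ [-2,2] × ℝ^ℕ` and
`[-2,2] × ℝ^ℕ ≃ ℝ^ℕ`. -/

set_option autoImplicit false
open Topology Filter
open scoped NNReal

namespace Pool.Agent.Lib.MP_4d09b6_gt

/-- `[0,∞) × [0,∞)^ℕ ≃ ℝ^ℕ` -/
noncomputable def GHomeo : ℝ≥0 × (ℕ → ℝ≥0) ≃ₜ (ℕ → ℝ) := swindle isCarry_hHomeo 0

lemma G_rel (p : ℝ≥0 × (ℕ → ℝ≥0)) (n : ℕ) :
    fwdCarry hHomeo p n = (GHomeo p n).toNNReal + fwdCarry hHomeo p (n + 1) /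
      (2 + 2 * (-(GHomeo p n)).toNNReal + fwdCarry hHomeo p (n + 1)) ∧
    p.2 n = (-(GHomeo p n)).toNNReal + fwdCarry hHomeo p (n + 1) := by
  have h := fwd_symm hHomeo p n
  rw [hHomeo_symm] at h
  exact ⟨(congrArg Prod.fst h).symm, (congrArg Prod.snd h).symm⟩

lemma G_bound (p : ℝ≥0 × (ℕ → ℝ≥0)) (t : ℝ≥0) (h1 : p.1 ≤ t) (h2 : ∀ n, p.2 n ≤ t) (n : ℕ) :
    |GHomeo p n| ≤ t := by
  have hc : ∀ n, fwdCarry hHomeo p n ≤ t := by
    intro n
    cases n with
    | zero => exact h1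
    | succ n => exact le_trans (by rw [(G_rel p n).2]; exact le_add_self) (h2 n)
  have a1 : (GHomeo p n).toNNReal ≤ t :=
    le_trans (by rw [(G_rel p n).1]; exact le_self_add) (hc n)
  have a2 : (-(GHomeo p n)).toNNReal ≤ t :=
    le_trans (by rw [(G_rel p n).2]; exact le_self_add) (h2 n)
  rw [abs_le]
  constructor
  · have := (Real.toNNReal_le_iff_le_coe).1 a2
    linarith
  · exact (Real.toNNReal_le_iff_le_coe).1 a1

lemma G_bound' (p : ℝ≥0 × (ℕ → ℝ≥0)) (t : ℝ≥0) (h : ∀ n, |GHomeo p n| ≤ t) :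
    p.1 ≤ t + 1 ∧ ∀ n, p.2 n ≤ 2 * t + 1 := by
  have hc : ∀ n, fwdCarry hHomeo p n ≤ t + 1 := by
    intro n
    rw [(G_rel p n).1]
    refine add_le_add ?_ ?_
    · exact Real.toNNReal_le_iff_le_coe.2 (le_trans (le_abs_self _) (h n))
    · apply div_le_one_of_le₀ _ (by positivity)
      exact le_add_self
  refine ⟨hc 0, fun n => ?_⟩
  rw [(G_rel p n).2]
  have h1 : (-(GHomeo p n)).toNNReal ≤ t :=
    Real.toNNReal_le_iff_le_coe.2 (le_trans (neg_le_abs _) (h n))
  calc (-(GHomeo p n)).toNNReal + fwdCarry hHomeo p (n + 1) ≤ t + (t + 1) :=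
        add_le_add h1 (hc (n + 1))
    _ = 2 * t + 1 := by ring

/-! ### clamp and excess -/

/-- clamp to `[-1,1]` -/
noncomputable def cl (x : ℝ) : ℝ := max (-1) (min x 1)

/-- excess -/
noncomputable def ex (x : ℝ) : ℝ := x - cl x

lemma continuous_cl : Continuous cl := by unfold cl; fun_prop

lemma continuous_ex : Continuous ex := continuous_id.sub continuous_cl

lemma cl_ex_cases (x : ℝ) : (x < -1 ∧ cl x = -1) ∨ (|x| ≤ 1 ∧ cl x = x) ∨ (1 < x ∧ cl x = 1) := by
  unfold cl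
  rcases lt_trichotomy x (-1) with h | h | h
  · left
    refine ⟨h, ?_⟩
    rw [min_eq_left (by linarith), max_eq_left h.le]
  · right; left
    subst h
    norm_num
  · rcases le_or_gt x 1 with h' | h'
    · right; left
      refine ⟨abs_le.2 ⟨h.le, h'⟩, ?_⟩
      rw [min_eq_left h', max_eq_right h.le]
    · right; right
      refine ⟨h', ?_⟩
      rw [min_eq_right h'.le]
      norm_num

lemma cl_add (x k : ℝ) (hk : 0 < k) : cl (cl x + ex x * k) = cl x := by
  rcases cl_ex_cases x with ⟨h, h'⟩ | ⟨h, h'⟩ | ⟨h, h'⟩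
  · have : ex x * k < 0 := mul_neg_of_neg_of_pos (by unfold ex; rw [h']; linarith) hk
    rw [h']
    unfold cl
    rw [min_eq_left (by linarith), max_eq_left (by linarith)]
  · have : ex x = 0 := by unfold ex; rw [h']; ring
    rw [this, h']
    simpa using h'
  · have : 0 < ex x * k := mul_pos (by unfold ex; rw [h']; linarith) hk
    rw [h']
    unfold cl
    rw [min_eq_right (by linarith)]
    norm_num

lemma ex_add (x k : ℝ) (hk : 0 < k) : ex (cl x + ex x * k) = ex x * k := by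
  have := cl_add x k hk
  rw [ex, this]
  ring

lemma cl_add_ex (x : ℝ) : cl x + ex x = x := by unfold ex; ring

lemma ex_of_abs_le {x : ℝ} (hx : |x| ≤ 1) : ex x = 0 := by
  have h := abs_le.1 hx
  unfold ex cl
  rw [min_eq_left h.2, max_eq_right h.1]
  ring

lemma cl_of_abs_le {x : ℝ} (hx : |x| ≤ 1) : cl x = x := by
  have h := abs_le.1 hx
  unfold cl
  rw [min_eq_left h.2, max_eq_right h.1]

/-- The interval `[-2,2]`. -/
abbrev I2 : Type := Set.Icc (-2 : ℝ) 2

lemma abs_ex_le_one (s : I2) : |ex (s : ℝ)| ≤ 1 := by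
  obtain ⟨s, h1, h2⟩ := s
  change |ex s| ≤ 1
  rw [abs_le]
  rcases cl_ex_cases s with ⟨h, h'⟩ | ⟨h, h'⟩ | ⟨h, h'⟩
  · unfold ex; rw [h']; constructor <;> linarith
  · rw [ex_of_abs_le h]; constructor <;> norm_num
  · unfold ex; rw [h']; constructor <;> linarith

lemma mem_I2_of (x k : ℝ) (hk : 0 ≤ k) (h : |ex x| * k ≤ 1) :
    cl x + ex x * k ∈ Set.Icc (-2 : ℝ) 2 := by
  have h1 : |ex x * k| ≤ 1 := by rwa [abs_mul, abs_of_nonneg hk]
  have h2 := abs_le.1 h1
  have h3 : -1 ≤ cl x := le_max_left _ _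
  have h4 : cl x ≤ 1 := max_le (by norm_num) (min_le_right _ _)
  constructor <;> linarith [h2.1, h2.2]

/-- carry parameter of the strip map -/
noncomputable def gc (p : ℝ × ℝ≥0) : ℝ≥0 := p.2 + (|ex p.1| - 1).toNNReal

lemma gc_ge (p : ℝ × ℝ≥0) : |ex p.1| ≤ 1 + gc p := by
  have h := Real.le_coe_toNNReal (|ex p.1| - 1)
  unfold gc
  push_cast
  have := p.2.coe_nonneg
  linarith

lemma gc_mem (p : ℝ × ℝ≥0) : cl p.1 + ex p.1 * (1 / (1 + (gc p : ℝ))) ∈ Set.Icc (-2 : ℝ) 2 := by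
  have h0 : (0 : ℝ) < 1 + gc p := by positivity
  apply mem_I2_of _ _ (by positivity)
  rw [mul_one_div, div_le_one h0]
  exact gc_ge p

/-- `ℝ × [0,∞) ≃ [-2,2] × [0,∞)` which does not change the first coordinate on `[-1,1]` -/
noncomputable def gammaTwo : ℝ × ℝ≥0 ≃ₜ I2 × ℝ≥0 where
  toFun p := (⟨cl p.1 + ex p.1 * (1 / (1 + (gc p : ℝ))), gc_mem p⟩, gc p)
  invFun q := (cl q.1 + ex q.1 * (1 + (q.2 : ℝ)),
    q.2 - (|ex (q.1 : ℝ)| * (1 + (q.2 : ℝ)) - 1).toNNReal)
  left_inv := by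
    intro p
    have h0 : (0 : ℝ) < 1 + gc p := by positivity
    have hk : (0 : ℝ) < 1 / (1 + (gc p : ℝ)) := by positivity
    refine Prod.ext ?_ ?_
    · change cl (cl p.1 + ex p.1 * (1 / (1 + (gc p : ℝ))))
        + ex (cl p.1 + ex p.1 * (1 / (1 + (gc p : ℝ)))) * (1 + (gc p : ℝ)) = p.1
      rw [cl_add _ _ hk, ex_add _ _ hk]
      rw [mul_assoc, one_div, inv_mul_cancel₀ h0.ne', mul_one, cl_add_ex]
    · change gc p - (|ex (cl p.1 + ex p.1 * (1 / (1 + (gc p : ℝ))))| * (1 + (gc p : ℝ)) - 1).toNNReal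
        = p.2
      rw [ex_add _ _ hk, abs_mul, abs_of_pos hk, mul_assoc, one_div, inv_mul_cancel₀ h0.ne',
        mul_one]
      unfold gc
      simp
  right_inv := by
    rintro ⟨s, c⟩
    have hk : (0 : ℝ) < 1 + (c : ℝ) := by positivity
    have hs := abs_ex_le_one s
    have hle : (|ex (s : ℝ)| * (1 + (c : ℝ)) - 1).toNNReal ≤ c := by
      rw [Real.toNNReal_le_iff_le_coe]
      nlinarith
    have hgc : gc (cl (s : ℝ) + ex (s : ℝ) * (1 + (c : ℝ)),
        c - (|ex (s : ℝ)| * (1 + (c : ℝ)) - 1).toNNReal) = c := by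
      unfold gc
      simp only
      rw [ex_add _ _ hk, abs_mul, abs_of_pos hk]
      exact tsub_add_cancel_of_le hle
    refine Prod.ext ?_ hgc
    apply Subtype.ext
    change cl (cl (s : ℝ) + ex (s : ℝ) * (1 + (c : ℝ)))
      + ex (cl (s : ℝ) + ex (s : ℝ) * (1 + (c : ℝ))) * (1 / (1 + (gc (_, _) : ℝ))) = s
    rw [hgc, cl_add _ _ hk, ex_add _ _ hk, mul_assoc, one_div, mul_inv_cancel₀ hk.ne', mul_one,
      cl_add_ex]
  continuous_toFun := by
    have hg : Continuous gc := by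
      unfold gc
      exact continuous_snd.add (continuous_real_toNNReal.comp
        (((continuous_ex.comp continuous_fst).abs).sub continuous_const))
    refine Continuous.prodMk (Continuous.subtype_mk ?_ _) hg
    refine (continuous_cl.comp continuous_fst).add
      ((continuous_ex.comp continuous_fst).mul ?_)
    refine Continuous.div continuous_const
      (continuous_const.add (NNReal.continuous_coe.comp hg)) (fun p => ?_)
    positivity
  continuous_invFun := by
    have h1 : Continuous fun q : I2 × ℝ≥0 => (q.1 : ℝ) := continuous_subtype_val.comp continuous_fst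
    have h2 : Continuous fun q : I2 × ℝ≥0 => (q.2 : ℝ) := NNReal.continuous_coe.comp continuous_snd
    refine Continuous.prodMk ?_ ?_
    · exact (continuous_cl.comp h1).add ((continuous_ex.comp h1).mul (continuous_const.add h2))
    · refine continuous_snd.sub (continuous_real_toNNReal.comp ?_)
      exact ((continuous_ex.comp h1).abs.mul (continuous_const.add h2)).sub continuous_const

lemma gammaTwo_fst_of_abs_le (p : ℝ × ℝ≥0) (h : |p.1| ≤ 1) :
    ((gammaTwo p).1 : ℝ) = p.1 := by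
  change cl p.1 + ex p.1 * (1 / (1 + (gc p : ℝ))) = p.1
  rw [cl_of_abs_le h, ex_of_abs_le h]
  ring

lemma gammaTwo_abs_le (p : ℝ × ℝ≥0) (h : |((gammaTwo p).1 : ℝ)| ≤ 1) : |p.1| ≤ 1 := by
  have h1 : gammaTwo.symm (gammaTwo p) = p := gammaTwo.symm_apply_apply p
  have h2 : (gammaTwo.symm (gammaTwo p)).1
      = cl ((gammaTwo p).1 : ℝ) + ex ((gammaTwo p).1 : ℝ) * (1 + ((gammaTwo p).2 : ℝ)) := rfl
  rw [h1, ex_of_abs_le h, cl_of_abs_le h] at h2
  rw [h2]
  simpa using h

/-- `[-2,2] × [0,∞) ≃ [0,∞) × [0,∞)` -/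
noncomputable def strip : I2 × ℝ≥0 ≃ₜ ℝ≥0 × ℝ≥0 where
  toFun q := ((((q.1 : ℝ) + 2) / 4).toNNReal * (1 + q.2),
    q.2 - ((((q.1 : ℝ) + 2) / 4).toNNReal * (1 + q.2) - 1))
  invFun p := (⟨4 * ((p.1 / (1 + (p.2 + (p.1 - 1))) : ℝ≥0) : ℝ) - 2, by
      have h1 : p.1 / (1 + (p.2 + (p.1 - 1))) ≤ 1 := by
        apply div_le_one_of_le₀ _ (by positivity)
        calc p.1 ≤ (p.1 - 1) + 1 := le_tsub_add
          _ ≤ 1 + (p.2 + (p.1 - 1)) := by
            rw [add_comm]
            exact add_le_add le_rfl le_add_self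
      have h2 : ((p.1 / (1 + (p.2 + (p.1 - 1))) : ℝ≥0) : ℝ) ≤ 1 := by exact_mod_cast h1
      have h3 := (p.1 / (1 + (p.2 + (p.1 - 1)))).coe_nonneg
      constructor <;> linarith⟩, p.2 + (p.1 - 1))
  left_inv := by
    rintro ⟨⟨s, hs1, hs2⟩, c⟩
    have hs0 : 0 ≤ (s + 2) / 4 := by linarith
    have hle : ((s + 2) / 4).toNNReal * (1 + c) - 1 ≤ c := by
      rw [tsub_le_iff_left]
      have : ((s + 2) / 4).toNNReal ≤ 1 := by
        rw [Real.toNNReal_le_one]; linarith
      calc ((s + 2) / 4).toNNReal * (1 + c) ≤ 1 * (1 + c) := by gcongr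
        _ = 1 + c := one_mul _
    refine Prod.ext ?_ ?_
    · apply Subtype.ext
      simp only
      rw [tsub_add_cancel_of_le hle]
      rw [mul_div_assoc, div_self (by positivity), mul_one, Real.coe_toNNReal _ hs0]
      ring
    · simp only
      exact tsub_add_cancel_of_le hle
  right_inv := by
    rintro ⟨P, Q⟩
    have h1 : (((4 * ((P / (1 + (Q + (P - 1))) : ℝ≥0) : ℝ) - 2) + 2) / 4).toNNReal
        = P / (1 + (Q + (P - 1))) := by
      have : (((4 * ((P / (1 + (Q + (P - 1))) : ℝ≥0) : ℝ) - 2) + 2) / 4)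
          = ((P / (1 + (Q + (P - 1))) : ℝ≥0) : ℝ) := by ring
      rw [this, Real.toNNReal_coe]
    have h2 : (P / (1 + (Q + (P - 1)))) * (1 + (Q + (P - 1))) = P :=
      div_mul_cancel₀ _ (by positivity)
    refine Prod.ext ?_ ?_
    · simp only
      rw [h1, h2]
    · simp only
      rw [h1, h2, add_tsub_cancel_right]
  continuous_toFun := by
    have h1 : Continuous fun q : I2 × ℝ≥0 => (((q.1 : ℝ) + 2) / 4).toNNReal :=
      continuous_real_toNNReal.comp (((continuous_subtype_val.comp continuous_fst).add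
        continuous_const).div_const _)
    have h2 : Continuous fun q : I2 × ℝ≥0 => (((q.1 : ℝ) + 2) / 4).toNNReal * (1 + q.2) :=
      h1.mul (continuous_const.add continuous_snd)
    exact h2.prodMk (continuous_snd.sub (h2.sub continuous_const))
  continuous_invFun := by
    have h0 : Continuous fun p : ℝ≥0 × ℝ≥0 => p.2 + (p.1 - 1) :=
      continuous_snd.add (continuous_fst.sub continuous_const)
    refine Continuous.prodMk (Continuous.subtype_mk ?_ _) h0
    refine (continuous_const.mul (NNReal.continuous_coe.comp ?_)).sub continuous_const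
    exact continuous_fst.div (continuous_const.add h0) (fun p => by positivity)

lemma strip_bound (q : I2 × ℝ≥0) : (strip q).1 ≤ 1 + q.2 ∧ (strip q).2 ≤ q.2 := by
  obtain ⟨⟨s, hs1, hs2⟩, c⟩ := q
  refine ⟨?_, ?_⟩
  · change ((s + 2) / 4).toNNReal * (1 + c) ≤ 1 + c
    have : ((s + 2) / 4).toNNReal ≤ 1 := by
      rw [Real.toNNReal_le_one]; linarith
    calc ((s + 2) / 4).toNNReal * (1 + c) ≤ 1 * (1 + c) := by gcongr
      _ = 1 + c := one_mul _
  · change c - _ ≤ c
    exact tsub_le_self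

lemma strip_bound' (q : I2 × ℝ≥0) : q.2 ≤ (strip q).1 + (strip q).2 := by
  have h1 : strip.symm (strip q) = q := strip.symm_apply_apply q
  have h2 : (strip.symm (strip q)).2 = (strip q).2 + ((strip q).1 - 1) := rfl
  rw [h1] at h2
  rw [h2, add_comm]
  exact add_le_add tsub_le_self le_rfl

end Pool.Agent.Lib.MP_4d09b6_gt
end

section

/-! The controlled homeomorphism `ℝ^ℕ × ℝ × ℝ^ℕ ≃ ℝ^ℕ × ℝ^ℕ`. -/

set_option autoImplicit false
open Topology Filter
open scoped NNReal

namespace Pool.Agent.Lib.MP_4d09b6_gt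

/-- prepend an element to a sequence -/
def consSeq {X : Type} (p : X × (ℕ → X)) : ℕ → X
  | 0 => p.1
  | n + 1 => p.2 n

/-- `X × X^ℕ ≃ X^ℕ` -/
def consHomeo (X : Type) [TopologicalSpace X] : X × (ℕ → X) ≃ₜ (ℕ → X) where
  toFun := consSeq
  invFun y := (y 0, fun n => y (n + 1))
  left_inv _ := rfl
  right_inv y := by funext n; cases n <;> rfl
  continuous_toFun := continuous_pi fun n => by
    cases n with
    | zero => exact continuous_fst
    | succ n => exact (continuous_apply n).comp continuous_snd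
  continuous_invFun := (continuous_apply 0).prodMk
    (continuous_pi fun n => continuous_apply (n + 1))

/-- the homeomorphism `ℝ × ℝ^ℕ ≃ [-2,2] × ℝ^ℕ` -/
noncomputable def gammaBig : ℝ × (ℕ → ℝ) ≃ₜ I2 × (ℕ → ℝ) :=
  ((Homeomorph.refl ℝ).prodCongr GHomeo.symm).trans <|
  (Homeomorph.prodAssoc ℝ ℝ≥0 (ℕ → ℝ≥0)).symm.trans <|
  (gammaTwo.prodCongr (Homeomorph.refl _)).trans <|
  (Homeomorph.prodAssoc I2 ℝ≥0 (ℕ → ℝ≥0)).trans <|
  ((Homeomorph.refl I2).prodCongr GHomeo)

lemma gammaBig_fst (p : ℝ × (ℕ → ℝ)) :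
    (gammaBig p).1 = (gammaTwo (p.1, (GHomeo.symm p.2).1)).1 := rfl

lemma gammaBig_of_abs_le (p : ℝ × (ℕ → ℝ)) (h : |p.1| ≤ 1) : ((gammaBig p).1 : ℝ) = p.1 := by
  rw [gammaBig_fst]
  exact gammaTwo_fst_of_abs_le _ h

lemma gammaBig_abs_le (p : ℝ × (ℕ → ℝ)) (h : |((gammaBig p).1 : ℝ)| ≤ 1) : |p.1| ≤ 1 := by
  rw [gammaBig_fst] at h
  exact gammaTwo_abs_le _ h

/-- the homeomorphism `[-2,2] × ℝ^ℕ ≃ ℝ^ℕ` -/
noncomputable def deltaZero : I2 × (ℕ → ℝ) ≃ₜ (ℕ → ℝ) :=
  ((Homeomorph.refl I2).prodCongr GHomeo.symm).trans <|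
  (Homeomorph.prodAssoc I2 ℝ≥0 (ℕ → ℝ≥0)).symm.trans <|
  (strip.prodCongr (Homeomorph.refl _)).trans <|
  (Homeomorph.prodAssoc ℝ≥0 ℝ≥0 (ℕ → ℝ≥0)).trans <|
  ((Homeomorph.refl ℝ≥0).prodCongr (consHomeo ℝ≥0)).trans GHomeo

lemma deltaZero_apply (q : I2 × (ℕ → ℝ)) :
    deltaZero q = GHomeo ((strip (q.1, (GHomeo.symm q.2).1)).1,
      consSeq ((strip (q.1, (GHomeo.symm q.2).1)).2, (GHomeo.symm q.2).2)) := rfl

lemma deltaZero_bound (q : I2 × (ℕ → ℝ)) (t : ℝ≥0) (h : ∀ n, |q.2 n| ≤ t) (n : ℕ) :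
    |deltaZero q n| ≤ 2 * t + 2 := by
  have h1 := G_bound' (GHomeo.symm q.2) t (by simpa using h)
  have h2 := strip_bound (q.1, (GHomeo.symm q.2).1)
  rw [deltaZero_apply]
  have h3 : ((2 * t + 2 : ℝ≥0) : ℝ) = 2 * (t : ℝ) + 2 := by push_cast; ring
  rw [← h3]
  apply G_bound
  · refine h2.1.trans ?_
    calc 1 + (GHomeo.symm q.2).1 ≤ 1 + (t + 1) := add_le_add le_rfl h1.1
      _ ≤ 2 * t + 2 := by
        have : 1 + (t + 1) = t + 2 := by ring
        rw [this, two_mul]
        exact add_le_add le_self_add le_rfl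
  · intro n
    cases n with
    | zero =>
      refine h2.2.trans (h1.1.trans ?_)
      rw [two_mul]
      exact add_le_add le_self_add (by norm_num)
    | succ n =>
      refine (h1.2 n).trans ?_
      exact add_le_add le_rfl (by norm_num)

lemma deltaZero_bound' (q : I2 × (ℕ → ℝ)) (t : ℝ≥0) (h : ∀ n, |deltaZero q n| ≤ t) (n : ℕ) :
    |q.2 n| ≤ 3 * t + 2 := by
  rw [deltaZero_apply] at h
  have h1 := G_bound' _ t h
  have h2 := strip_bound' (q.1, (GHomeo.symm q.2).1)
  have h3 : ((3 * t + 2 : ℝ≥0) : ℝ) = 3 * (t : ℝ) + 2 := by push_cast; ring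
  have h4 : q.2 = GHomeo (GHomeo.symm q.2) := (GHomeo.apply_symm_apply _).symm
  rw [h4, ← h3]
  apply G_bound
  · refine h2.trans ?_
    have h5 := h1.2 0
    calc (strip (q.1, (GHomeo.symm q.2).1)).1 + (strip (q.1, (GHomeo.symm q.2).1)).2
        ≤ (t + 1) + (2 * t + 1) := add_le_add h1.1 h5
      _ = 3 * t + 2 := by ring
  · intro n
    have h5 := h1.2 (n + 1)
    refine le_trans h5 ?_
    exact add_le_add (by gcongr; norm_num) (by norm_num)

/-- reindexing -/
def reidx {ι ι' : Type} (e : ι ≃ ι') : (ι' → ℝ) ≃ₜ (ι → ℝ) where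
  toFun f := fun i => f (e i)
  invFun g := fun j => g (e.symm j)
  left_inv f := by funext j; simp
  right_inv g := by funext i; simp
  continuous_toFun := continuous_pi fun i => continuous_apply (e i)
  continuous_invFun := continuous_pi fun j => continuous_apply (e.symm j)

/-- index type used for the unknotting -/
abbrev J : Type := ℕ ⊕ (ℕ × ℚ × ℚ)

lemma exists_eJ : Nonempty (ℕ ≃ J) := ⟨(Denumerable.eqv J).symm⟩

/-- the compact core -/
abbrev Core : Type := Set.Icc (-1 : ℝ) 1 × (ℕ → Set.Icc (-1 : ℝ) 1)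

/-- the point of `[-2,2] × ℝ^ℕ` given by a core point -/
def coreIn (k : Core) : I2 × (ℕ → ℝ) :=
  (⟨(k.1 : ℝ), by have := k.1.2; exact ⟨by linarith [this.1], by linarith [this.2]⟩⟩,
    fun n => (k.2 n : ℝ))

/-- the point of `ℝ^ℕ` given by a core point -/
def coreOut (k : Core) : ℕ → ℝ := consSeq ((k.1 : ℝ), fun n => (k.2 n : ℝ))

lemma continuous_coreIn : Continuous coreIn := by
  unfold coreIn
  refine Continuous.prodMk (Continuous.subtype_mk ?_ _) (continuous_pi fun n => ?_)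
  · exact continuous_subtype_val.comp continuous_fst
  · exact continuous_subtype_val.comp ((continuous_apply n).comp continuous_snd)

lemma coreIn_injective : Function.Injective coreIn := by
  intro k k' h
  refine Prod.ext ?_ ?_
  · apply Subtype.ext
    have := congrArg (fun q : I2 × (ℕ → ℝ) => (q.1 : ℝ)) h
    exact this
  · funext n
    apply Subtype.ext
    have := congrArg (fun q : I2 × (ℕ → ℝ) => q.2 n) h
    exact this

lemma continuous_coreOut : Continuous coreOut := by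
  refine continuous_pi fun n => ?_
  cases n with
  | zero => exact continuous_subtype_val.comp continuous_fst
  | succ n => exact continuous_subtype_val.comp ((continuous_apply n).comp continuous_snd)

lemma coreOut_injective : Function.Injective coreOut := by
  intro k k' h
  refine Prod.ext ?_ ?_
  · apply Subtype.ext
    exact congrFun h 0
  · funext n
    apply Subtype.ext
    exact congrFun h (n + 1)

lemma coreOut_bound (k : Core) (n : ℕ) : |coreOut k n| ≤ 1 := by
  cases n with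
  | zero => exact abs_le.2 k.1.2
  | succ n => exact abs_le.2 (k.2 n).2

theorem exists_beta : ∃ β : I2 × (ℕ → ℝ) ≃ₜ (ℕ → ℝ), ∃ C : ℝ, 1 ≤ C ∧
    (∀ k : Core, β (coreIn k) = coreOut k) ∧
    (∀ t : ℝ, 1 ≤ t → ∀ q : I2 × (ℕ → ℝ), (∀ n, |q.2 n| ≤ t) → ∀ n, |β q n| ≤ C * t) ∧
    (∀ t : ℝ, 1 ≤ t → ∀ q : I2 × (ℕ → ℝ), (∀ n, |β q n| ≤ t) → ∀ n, |q.2 n| ≤ C * t) := by
  obtain ⟨e⟩ := exists_eJ
  have hb : ∀ (k : Core) (n : ℕ), |deltaZero (coreIn k) n| ≤ 4 := by
    intro k n
    have := deltaZero_bound (coreIn k) 1 (fun n => by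
      rw [NNReal.coe_one]
      exact abs_le.2 (k.2 n).2) n
    have h4 : 2 * ((1 : ℝ≥0) : ℝ) + 2 = 4 := by norm_num
    rwa [h4] at this
  obtain ⟨H, hH, C, hC⟩ := unknot (A := ℕ) (R := 4) (by norm_num)
    (fun k : Core => (reidx e).symm (deltaZero (coreIn k)))
    (fun k : Core => (reidx e).symm (coreOut k)) coreOut
    ((reidx e).symm.continuous.comp (deltaZero.continuous.comp continuous_coreIn))
    ((reidx e).symm.continuous.comp continuous_coreOut) continuous_coreOut
    ((reidx e).symm.injective.comp (deltaZero.injective.comp coreIn_injective))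
    ((reidx e).symm.injective.comp coreOut_injective) coreOut_injective
    (fun k i => hb k _) (fun k i => (coreOut_bound k _).trans (by norm_num))
    (fun k i => (coreOut_bound k _).trans (by norm_num))
  have hC0 : 0 ≤ C := (abs_nonneg _).trans (hC (fun _ => 0) (Sum.inl 0))
  set Ξ : (ℕ → ℝ) ≃ₜ (ℕ → ℝ) := (reidx e).symm.trans (H.trans (reidx e)) with hΞ
  have hΞd : DispLE Ξ C := by
    intro u n
    have h1 := hC ((reidx e).symm u) (e n)
    have h2 : (reidx e).symm u (e n) = u n := by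
      change u (e.symm (e n)) = u n
      rw [e.symm_apply_apply]
    rw [h2] at h1
    exact h1
  refine ⟨deltaZero.trans Ξ, 3 * C + 5, by linarith, ?_, ?_, ?_⟩
  · intro k
    change (reidx e) (H ((reidx e).symm (deltaZero (coreIn k)))) = coreOut k
    rw [hH k, Homeomorph.apply_symm_apply]
  · intro t ht q hq n
    change |Ξ (deltaZero q) n| ≤ _
    have h1 := hΞd (deltaZero q) n
    have h2 := deltaZero_bound q ⟨t, by linarith⟩ hq n
    have h2' : |deltaZero q n| ≤ 2 * t + 2 := h2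
    have h3 : |Ξ (deltaZero q) n| ≤ |Ξ (deltaZero q) n - deltaZero q n| + |deltaZero q n| := by
      calc |Ξ (deltaZero q) n| = |(Ξ (deltaZero q) n - deltaZero q n) + deltaZero q n| := by
            ring_nf
        _ ≤ _ := abs_add_le _ _
    nlinarith
  · intro t ht q hq n
    change ∀ n, |Ξ (deltaZero q) n| ≤ t at hq
    have h1 : ∀ n, |deltaZero q n| ≤ t + C := by
      intro n
      have h1 := hΞd (deltaZero q) n
      have h3 : |deltaZero q n| ≤ |Ξ (deltaZero q) n - deltaZero q n| + |Ξ (deltaZero q) n| := by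
        calc |deltaZero q n| = |-(Ξ (deltaZero q) n - deltaZero q n) + Ξ (deltaZero q) n| := by
              ring_nf
          _ ≤ |-(Ξ (deltaZero q) n - deltaZero q n)| + |Ξ (deltaZero q) n| := abs_add_le _ _
          _ = _ := by rw [abs_neg]
      linarith [hq n]
    have h2 := deltaZero_bound' q ⟨t + C, by linarith⟩ h1 n
    have h2' : |q.2 n| ≤ 3 * (t + C) + 2 := h2
    refine h2'.trans ?_
    nlinarith

theorem exists_alpha : ∃ α : (ℕ → ℝ) × (ℝ × (ℕ → ℝ)) ≃ₜ (ℕ → ℝ) × (ℕ → ℝ), ∃ C : ℝ, 1 ≤ C ∧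
    (∀ t : ℝ, 0 ≤ t → ∀ p : (ℕ → ℝ) × (ℝ × (ℕ → ℝ)), (∀ n, |p.1 n| ≤ t) →
      (t < 1 → |p.2.1| ≤ t) → ∀ n, |(α p).1 n| ≤ C * t) ∧
    (∀ t : ℝ, 0 ≤ t → ∀ p : (ℕ → ℝ) × (ℝ × (ℕ → ℝ)), (∀ n, |(α p).1 n| ≤ t) →
      (∀ n, |p.1 n| ≤ C * t) ∧ (t < 1 → |p.2.1| ≤ t)) := by
  obtain ⟨β, C, hC, hcore, hb1, hb2⟩ := exists_beta
  let α : (ℕ → ℝ) × (ℝ × (ℕ → ℝ)) ≃ₜ (ℕ → ℝ) × (ℕ → ℝ) :=
    ((Homeomorph.refl (ℕ → ℝ)).prodCongr gammaBig).trans <|
    (Homeomorph.prodAssoc (ℕ → ℝ) I2 (ℕ → ℝ)).symm.trans <|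
    ((Homeomorph.prodComm (ℕ → ℝ) I2).trans β).prodCongr (Homeomorph.refl (ℕ → ℝ))
  have hα : ∀ p, (α p).1 = β ((gammaBig p.2).1, p.1) := fun p => rfl
  refine ⟨α, C, hC, ?_, ?_⟩
  · intro t ht p hp hx n
    rcases lt_or_ge t 1 with h1 | h1
    · have hx' := hx h1
      have hxx : |p.2.1| ≤ 1 := hx'.trans h1.le
      have hg := gammaBig_of_abs_le p.2 hxx
      let k : Core := (⟨p.2.1, abs_le.1 hxx⟩, fun n => ⟨p.1 n, abs_le.1 ((hp n).trans h1.le)⟩)
      have hk : ((gammaBig p.2).1, p.1) = coreIn k := by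
        refine Prod.ext (Subtype.ext ?_) rfl
        exact hg
      rw [hα, hk, hcore]
      have h2 : |coreOut k n| ≤ t := by
        cases n with
        | zero => exact hx'
        | succ n => exact hp n
      nlinarith [abs_nonneg (coreOut k n)]
    · rw [hα]
      exact hb1 t h1 _ hp n
  · intro t ht p hp
    rw [hα] at hp
    rcases lt_or_ge t 1 with h1 | h1
    · let k : Core := (⟨β ((gammaBig p.2).1, p.1) 0, abs_le.1 ((hp 0).trans h1.le)⟩,
        fun n => ⟨β ((gammaBig p.2).1, p.1) (n + 1), abs_le.1 ((hp (n + 1)).trans h1.le)⟩)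
      have hk : coreOut k = β ((gammaBig p.2).1, p.1) := by
        funext n
        cases n <;> rfl
      have hk2 : coreIn k = ((gammaBig p.2).1, p.1) := by
        apply β.injective
        rw [hcore, hk]
      have hy : ∀ n, p.1 n = β ((gammaBig p.2).1, p.1) (n + 1) := fun n =>
        (congrArg (fun q : I2 × (ℕ → ℝ) => q.2 n) hk2).symm
      have hx : ((gammaBig p.2).1 : ℝ) = β ((gammaBig p.2).1, p.1) 0 :=
        (congrArg (fun q : I2 × (ℕ → ℝ) => (q.1 : ℝ)) hk2).symm
      have hx1 : |((gammaBig p.2).1 : ℝ)| ≤ t := by rw [hx]; exact hp 0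
      have hx2 : |p.2.1| ≤ 1 := gammaBig_abs_le _ (hx1.trans h1.le)
      have hx3 := gammaBig_of_abs_le p.2 hx2
      refine ⟨fun n => ?_, fun _ => ?_⟩
      · rw [hy n]
        have := hp (n + 1)
        nlinarith
      · rw [← hx3]; exact hx1
    · exact ⟨hb2 t h1 _ hp, fun h => absurd h (not_lt.2 h1)⟩

theorem exists_alpha_scaled : ∃ C : ℝ, 1 ≤ C ∧ ∀ s : ℝ, 0 < s →
    ∃ α : (ℕ → ℝ) × (ℝ × (ℕ → ℝ)) ≃ₜ (ℕ → ℝ) × (ℕ → ℝ),
    (∀ t : ℝ, 0 ≤ t → ∀ p : (ℕ → ℝ) × (ℝ × (ℕ → ℝ)), (∀ n, |p.1 n| ≤ t) →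
      (t < s → |p.2.1| ≤ t) → ∀ n, |(α p).1 n| ≤ C * t) ∧
    (∀ t : ℝ, 0 ≤ t → ∀ p : (ℕ → ℝ) × (ℝ × (ℕ → ℝ)), (∀ n, |(α p).1 n| ≤ t) →
      (∀ n, |p.1 n| ≤ C * t) ∧ (t < s → |p.2.1| ≤ t)) := by
  obtain ⟨α, C, hC, h1, h2⟩ := exists_alpha
  refine ⟨C, hC, fun s hs => ?_⟩
  have hs' : s⁻¹ ≠ 0 := inv_ne_zero hs.ne'
  refine ⟨(((Homeomorph.smulOfNeZero s⁻¹ hs' : (ℕ → ℝ) ≃ₜ (ℕ → ℝ)).prodCongr
    ((Homeomorph.smulOfNeZero s⁻¹ hs' : ℝ ≃ₜ ℝ).prodCongr
      (Homeomorph.refl (ℕ → ℝ)))).trans α).trans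
    ((Homeomorph.smulOfNeZero s hs.ne' : (ℕ → ℝ) ≃ₜ (ℕ → ℝ)).prodCongr
      (Homeomorph.refl (ℕ → ℝ))), ?_, ?_⟩
  · intro t ht p hp hx n
    have h3 := h1 (s⁻¹ * t) (by positivity) (s⁻¹ • p.1, (s⁻¹ • p.2.1, p.2.2))
      (fun n => by
        change |s⁻¹ * p.1 n| ≤ _
        rw [abs_mul, abs_of_pos (inv_pos.2 hs)]
        exact mul_le_mul_of_nonneg_left (hp n) (inv_pos.2 hs).le)
      (fun h => by
        change |s⁻¹ * p.2.1| ≤ _
        rw [abs_mul, abs_of_pos (inv_pos.2 hs)]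
        refine mul_le_mul_of_nonneg_left (hx ?_) (inv_pos.2 hs).le
        rwa [inv_mul_lt_iff₀ hs, mul_one] at h) n
    change |s * (α (s⁻¹ • p.1, (s⁻¹ • p.2.1, p.2.2))).1 n| ≤ _
    rw [abs_mul, abs_of_pos hs]
    calc s * |(α (s⁻¹ • p.1, (s⁻¹ • p.2.1, p.2.2))).1 n| ≤ s * (C * (s⁻¹ * t)) :=
          mul_le_mul_of_nonneg_left h3 hs.le
      _ = C * t := by field_simp
  · intro t ht p hp
    have h3 := h2 (s⁻¹ * t) (by positivity) (s⁻¹ • p.1, (s⁻¹ • p.2.1, p.2.2))
      (fun n => by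
        have := hp n
        change |s * (α (s⁻¹ • p.1, (s⁻¹ • p.2.1, p.2.2))).1 n| ≤ t at this
        rw [abs_mul, abs_of_pos hs] at this
        rwa [inv_mul_eq_div, le_div_iff₀' hs])
    refine ⟨fun n => ?_, fun h => ?_⟩
    · have h4 := h3.1 n
      change |s⁻¹ * p.1 n| ≤ _ at h4
      rw [abs_mul, abs_of_pos (inv_pos.2 hs)] at h4
      have h5 : s * (s⁻¹ * |p.1 n|) ≤ s * (C * (s⁻¹ * t)) := mul_le_mul_of_nonneg_left h4 hs.le
      rw [mul_inv_cancel_left₀ hs.ne'] at h5
      calc |p.1 n| ≤ s * (C * (s⁻¹ * t)) := h5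
        _ = C * t := by field_simp
    · have h4 := h3.2 (by rwa [inv_mul_lt_iff₀ hs, mul_one])
      change |s⁻¹ * p.2.1| ≤ _ at h4
      rw [abs_mul, abs_of_pos (inv_pos.2 hs)] at h4
      exact le_of_mul_le_mul_left h4 (inv_pos.2 hs)

end Pool.Agent.Lib.MP_4d09b6_gt
end

section

/-! The two countable spaces and the homeomorphism of pairs. -/

set_option autoImplicit false
open Topology Filter

namespace Pool.Agent.Lib.MP_4d09b6_gt

/-- The space with isolated points `pt i` (`i : ι`) and one more point `inf`, the punctured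
neighbourhoods of which are the members of `F`. -/
inductive PointSpace (ι : Type) (F : Filter ι) : Type
  | inf : PointSpace ι F
  | pt (i : ι) : PointSpace ι F

variable {ι : Type} {F : Filter ι}

open PointSpace

instance : TopologicalSpace (PointSpace ι F) := nhdsAdjoint inf (map pt F)

lemma continuous_pointSpace_iff {Y : Type} [TopologicalSpace Y] (f : PointSpace ι F → Y) :
    Continuous f ↔ Tendsto (fun i : ι => f (pt i)) F (𝓝 (f inf)) := by
  have : Continuous f ↔ Tendsto f (map pt F) (𝓝 (f inf)) :=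
    continuous_nhdsAdjoint_dom (a := inf)
  rw [this, tendsto_map'_iff]
  rfl

lemma isOpen_pointSpace_iff (s : Set (PointSpace ι F)) :
    IsOpen s ↔ (inf ∈ s → ∀ᶠ i in F, pt i ∈ s) := by
  constructor
  · intro h h2
    have h3 : s ∈ map pt F := h h2
    exact h3
  · intro h1 h2
    exact h1 h2

lemma isOpen_of_notMem {s : Set (PointSpace ι F)} (h : inf ∉ s) : IsOpen s :=
  (isOpen_pointSpace_iff s).2 fun h' => absurd h' h

theorem t35Space_pointSpace (hF : ∀ i, ∀ᶠ j in F, j ≠ i) : T35Space (PointSpace ι F) := by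
  classical
  -- every singleton is closed
  have hsing : ∀ x : PointSpace ι F, IsClosed ({x} : Set (PointSpace ι F)) := by
    intro x
    rw [← isOpen_compl_iff]
    cases x with
    | inf => exact isOpen_of_notMem (by simp)
    | pt i =>
      rw [isOpen_pointSpace_iff]
      intro _
      filter_upwards [hF i] with j hj
      intro h
      rw [Set.mem_singleton_iff] at h
      exact hj (by injection h)
  have hT1 : T1Space (PointSpace ι F) := ⟨fun x => hsing x⟩
  -- a clopen neighbourhood of every point missing a closed set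
  have key : ∀ (x : PointSpace ι F) (K : Set (PointSpace ι F)), IsClosed K → x ∉ K →
      ∃ C : Set (PointSpace ι F), IsClopen C ∧ x ∉ C ∧ K ⊆ C := by
    intro x K hK hx
    cases x with
    | inf =>
      exact ⟨K, ⟨hK, isOpen_of_notMem hx⟩, hx, subset_rfl⟩
    | pt i =>
      refine ⟨{pt i}ᶜ, ⟨?_, ?_⟩, by simp, ?_⟩
      · rw [isClosed_compl_iff]
        exact isOpen_of_notMem (by simp)
      · exact (hsing _).isOpen_compl
      · intro y hy hyi
        rw [Set.mem_singleton_iff] at hyi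
        exact hx (hyi ▸ hy)
  have hcr : CompletelyRegularSpace (PointSpace ι F) := by
    refine ⟨fun x K hK hx => ?_⟩
    obtain ⟨C, hC, hxC, hKC⟩ := key x K hK hx
    refine ⟨C.indicator 1, ?_, ?_, ?_⟩
    · exact (IsClopen.continuous_indicator hC continuous_one)
    · simp [hxC]
    · intro y hy
      simp [hKC hy]
  exact { }

/-- A homeomorphism `ℝ^ι ≃ ℝ^κ` that preserves convergence to zero along the filters gives a
homeomorphism of the full function spaces preserving continuity. -/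
theorem exists_pair_homeo {κ : Type} {G : Filter κ} (Φ : (ι → ℝ) ≃ₜ (κ → ℝ))
    (hΦ : ∀ f : ι → ℝ, Tendsto f F (𝓝 0) ↔ Tendsto (Φ f) G (𝓝 0)) :
    ∃ φ : (PointSpace ι F → ℝ) ≃ₜ (PointSpace κ G → ℝ),
      φ '' {f | Continuous f} = {g | Continuous g} := by
  let φ : (PointSpace ι F → ℝ) ≃ₜ (PointSpace κ G → ℝ) :=
    { toFun := fun f x => match x with
        | inf => f inf
        | pt j => Φ (fun i => f (pt i) - f inf) j + f inf
      invFun := fun g x => match x with
        | inf => g inf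
        | pt i => Φ.symm (fun j => g (pt j) - g inf) i + g inf
      left_inv := by
        intro f
        funext x
        rcases x with _ | i
        · rfl
        · change Φ.symm (fun j => (Φ (fun i => f (pt i) - f inf) j + f inf) - f inf) i + f inf
            = f (pt i)
          simp only [add_sub_cancel_right]
          rw [Φ.symm_apply_apply]
          ring
      right_inv := by
        intro g
        funext x
        rcases x with _ | j
        · rfl
        · change Φ (fun i => (Φ.symm (fun j => g (pt j) - g inf) i + g inf) - g inf) j + g inf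
            = g (pt j)
          simp only [add_sub_cancel_right]
          rw [Φ.apply_symm_apply]
          ring
      continuous_toFun := by
        refine continuous_pi fun x => ?_
        rcases x with _ | j
        · exact continuous_apply _
        · refine Continuous.add ?_ (continuous_apply _)
          refine (continuous_apply j).comp (Φ.continuous.comp (continuous_pi fun i => ?_))
          exact (continuous_apply _).sub (continuous_apply _)
      continuous_invFun := by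
        refine continuous_pi fun x => ?_
        rcases x with _ | i
        · exact continuous_apply _
        · refine Continuous.add ?_ (continuous_apply _)
          refine (continuous_apply i).comp (Φ.symm.continuous.comp (continuous_pi fun j => ?_))
          exact (continuous_apply _).sub (continuous_apply _) }
  have hinf : ∀ f, φ f inf = f inf := fun f => rfl
  have hpt : ∀ f j, φ f (pt j) = Φ (fun i => f (pt i) - f inf) j + f inf := fun f j => rfl
  have hiff : ∀ f, Continuous f ↔ Continuous (φ f) := by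
    intro f
    rw [continuous_pointSpace_iff, continuous_pointSpace_iff, hinf]
    rw [← tendsto_sub_nhds_zero_iff, hΦ]
    conv_rhs => rw [← tendsto_sub_nhds_zero_iff]
    have : (fun j => φ f (pt j) - f inf) = Φ (fun i => f (pt i) - f inf) := by
      funext j
      rw [hpt]
      ring
    rw [this]
  refine ⟨φ, ?_⟩
  ext g
  constructor
  · rintro ⟨f, hf, rfl⟩
    exact (hiff f).1 hf
  · intro hg
    refine ⟨φ.symm g, ?_, φ.apply_symm_apply g⟩
    change Continuous (φ.symm g)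
    rw [hiff, φ.apply_symm_apply]
    exact hg

/-! ### The concrete filters -/

/-- index set of the isolated points of the first space -/
abbrev I₁ : Type := ℕ × ℕ × (ℕ ⊕ ℕ)

/-- index set of the isolated points of the second space -/
abbrev I₂ : Type := ℕ × ℕ × (ℕ ⊕ Option ℕ)

/-- the filter of the first space: rows `(n, k, inl i)` for `n` large -/
def F₁ : Filter I₁ :=
  map (fun p : ℕ × (ℕ × ℕ) => (p.1, p.2.1, Sum.inl p.2.2)) (comap Prod.fst atTop)

/-- the filter of the second space: rows `(n, k, inl i)` for `n` large, and, for every `k`, the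
sequence `(n, k, inr none)`. -/
def F₂ : Filter I₂ :=
  map (fun p : ℕ × (ℕ × ℕ) => (p.1, p.2.1, Sum.inl p.2.2)) (comap Prod.fst atTop) ⊔
    ⨆ k : ℕ, map (fun n : ℕ => (n, k, Sum.inr none)) atTop

lemma eventually_F₁ (P : I₁ → Prop) :
    (∀ᶠ x in F₁, P x) ↔ ∃ N, ∀ n, N ≤ n → ∀ k i, P (n, k, Sum.inl i) := by
  unfold F₁
  rw [eventually_map, eventually_comap, eventually_atTop]
  constructor
  · rintro ⟨N, hN⟩
    exact ⟨N, fun n hn k i => hN n hn (n, k, i) rfl⟩
  · rintro ⟨N, hN⟩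
    refine ⟨N, fun n hn => ?_⟩
    rintro ⟨m, k, i⟩ rfl
    exact hN _ hn k i

lemma eventually_F₂ (P : I₂ → Prop) :
    (∀ᶠ x in F₂, P x) ↔ (∃ N, ∀ n, N ≤ n → ∀ k i, P (n, k, Sum.inl i)) ∧
      ∀ k, ∃ N, ∀ n, N ≤ n → P (n, k, Sum.inr none) := by
  unfold F₂
  rw [eventually_sup, eventually_map, eventually_comap, eventually_atTop, eventually_iSup]
  refine and_congr ?_ ?_
  · constructor
    · rintro ⟨N, hN⟩
      exact ⟨N, fun n hn k i => hN n hn (n, k, i) rfl⟩
    · rintro ⟨N, hN⟩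
      refine ⟨N, fun n hn => ?_⟩
      rintro ⟨m, k, i⟩ rfl
      exact hN _ hn k i
  · refine forall_congr' fun k => ?_
    rw [eventually_map, eventually_atTop]

lemma tendsto_F₁ (f : I₁ → ℝ) :
    Tendsto f F₁ (𝓝 0) ↔ ∀ ε > 0, ∃ N, ∀ n, N ≤ n → ∀ k i, |f (n, k, Sum.inl i)| ≤ ε := by
  rw [Metric.tendsto_nhds]
  constructor
  · intro h ε hε
    have := h ε hε
    rw [eventually_F₁] at this
    obtain ⟨N, hN⟩ := this
    refine ⟨N, fun n hn k i => ?_⟩
    have := hN n hn k i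
    rw [Real.dist_0_eq_abs] at this
    exact this.le
  · intro h ε hε
    rw [eventually_F₁]
    obtain ⟨N, hN⟩ := h (ε / 2) (by linarith)
    refine ⟨N, fun n hn k i => ?_⟩
    rw [Real.dist_0_eq_abs]
    exact (hN n hn k i).trans_lt (by linarith)

lemma tendsto_F₂ (f : I₂ → ℝ) :
    Tendsto f F₂ (𝓝 0) ↔ (∀ ε > 0, ∃ N, ∀ n, N ≤ n → ∀ k i, |f (n, k, Sum.inl i)| ≤ ε) ∧
      ∀ k, ∀ ε > 0, ∃ N, ∀ n, N ≤ n → |f (n, k, Sum.inr none)| ≤ ε := by
  rw [Metric.tendsto_nhds]
  constructor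
  · intro h
    refine ⟨fun ε hε => ?_, fun k ε hε => ?_⟩
    · have := h ε hε
      rw [eventually_F₂] at this
      obtain ⟨N, hN⟩ := this.1
      refine ⟨N, fun n hn k i => ?_⟩
      have := hN n hn k i
      rw [Real.dist_0_eq_abs] at this
      exact this.le
    · have := h ε hε
      rw [eventually_F₂] at this
      obtain ⟨N, hN⟩ := this.2 k
      refine ⟨N, fun n hn => ?_⟩
      have := hN n hn
      rw [Real.dist_0_eq_abs] at this
      exact this.le
  · intro h ε hε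
    rw [eventually_F₂]
    refine ⟨?_, fun k => ?_⟩
    · obtain ⟨N, hN⟩ := h.1 (ε / 2) (by linarith)
      refine ⟨N, fun n hn k i => ?_⟩
      rw [Real.dist_0_eq_abs]
      exact (hN n hn k i).trans_lt (by linarith)
    · obtain ⟨N, hN⟩ := h.2 k (ε / 2) (by linarith)
      refine ⟨N, fun n hn => ?_⟩
      rw [Real.dist_0_eq_abs]
      exact (hN n hn).trans_lt (by linarith)

/-- the first space -/
abbrev X₁ : Type := PointSpace I₁ F₁

/-- the second space -/
abbrev X₂ : Type := PointSpace I₂ F₂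

instance : T35Space X₁ := t35Space_pointSpace (by
  rintro ⟨m, k', i'⟩
  rw [eventually_F₁]
  refine ⟨m + 1, fun n hn k i h => ?_⟩
  have := congrArg Prod.fst h
  simp only at this
  omega)

instance : T35Space X₂ := t35Space_pointSpace (by
  rintro ⟨m, k', i'⟩
  rw [eventually_F₂]
  refine ⟨⟨m + 1, fun n hn k i h => ?_⟩, fun k => ⟨m + 1, fun n hn h => ?_⟩⟩
  · have := congrArg Prod.fst h
    simp only at this
    omega
  · have := congrArg Prod.fst h
    simp only at this
    omega)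

/-- splitting off the point `none` -/
def optHomeo : (Option ℕ → ℝ) ≃ₜ ℝ × (ℕ → ℝ) where
  toFun f := (f none, fun n => f (some n))
  invFun p := fun x => match x with
    | none => p.1
    | some n => p.2 n
  left_inv f := by funext x; cases x <;> rfl
  right_inv p := rfl
  continuous_toFun := (continuous_apply _).prodMk (continuous_pi fun n => continuous_apply _)
  continuous_invFun := continuous_pi fun x => by
    cases x with
    | none => exact continuous_fst
    | some n => exact (continuous_apply n).comp continuous_snd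

theorem exists_block : ∃ C : ℝ, 1 ≤ C ∧ ∀ s : ℝ, 0 < s →
    ∃ γ : (ℕ ⊕ Option ℕ → ℝ) ≃ₜ (ℕ ⊕ ℕ → ℝ),
    (∀ t : ℝ, 0 ≤ t → ∀ g : ℕ ⊕ Option ℕ → ℝ, (∀ n, |g (Sum.inl n)| ≤ t) →
      (t < s → |g (Sum.inr none)| ≤ t) → ∀ n, |γ g (Sum.inl n)| ≤ C * t) ∧
    (∀ t : ℝ, 0 ≤ t → ∀ g : ℕ ⊕ Option ℕ → ℝ, (∀ n, |γ g (Sum.inl n)| ≤ t) →
      (∀ n, |g (Sum.inl n)| ≤ C * t) ∧ (t < s → |g (Sum.inr none)| ≤ t)) := by
  obtain ⟨C, hC, h⟩ := exists_alpha_scaled
  refine ⟨C, hC, fun s hs => ?_⟩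
  obtain ⟨α, h1, h2⟩ := h s hs
  let e : (ℕ ⊕ Option ℕ → ℝ) ≃ₜ (ℕ → ℝ) × (ℝ × (ℕ → ℝ)) :=
    Homeomorph.sumArrowHomeomorphProdArrow.trans ((Homeomorph.refl (ℕ → ℝ)).prodCongr optHomeo)
  let e' : (ℕ ⊕ ℕ → ℝ) ≃ₜ (ℕ → ℝ) × (ℕ → ℝ) := Homeomorph.sumArrowHomeomorphProdArrow
  refine ⟨(e.trans α).trans e'.symm, ?_, ?_⟩
  · intro t ht g hg hx n
    exact h1 t ht (e g) hg hx n
  · intro t ht g hg
    exact h2 t ht (e g) hg

/-- blockwise homeomorphism -/
def blockwise {A B : Type} (H : ℕ → ((B → ℝ) ≃ₜ (A → ℝ))) :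
    (ℕ × ℕ × B → ℝ) ≃ₜ (ℕ × ℕ × A → ℝ) where
  toFun g := fun p => H p.2.1 (fun b => g (p.1, p.2.1, b)) p.2.2
  invFun f := fun p => (H p.2.1).symm (fun a => f (p.1, p.2.1, a)) p.2.2
  left_inv g := by
    funext ⟨n, k, b⟩
    change (H k).symm (fun a => H k (fun b => g (n, k, b)) a) b = _
    rw [show (fun a => H k (fun b => g (n, k, b)) a) = H k (fun b => g (n, k, b)) from rfl,
      (H k).symm_apply_apply]
  right_inv f := by
    funext ⟨n, k, a⟩
    change (H k) (fun b => (H k).symm (fun a => f (n, k, a)) b) a = _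
    rw [show (fun b => (H k).symm (fun a => f (n, k, a)) b) = (H k).symm (fun a => f (n, k, a))
      from rfl, (H k).apply_symm_apply]
  continuous_toFun := continuous_pi fun p => (continuous_apply p.2.2).comp
    ((H p.2.1).continuous.comp (continuous_pi fun b => continuous_apply _))
  continuous_invFun := continuous_pi fun p => (continuous_apply p.2.2).comp
    ((H p.2.1).symm.continuous.comp (continuous_pi fun b => continuous_apply _))

theorem exists_index_homeo : ∃ Φ : (I₂ → ℝ) ≃ₜ (I₁ → ℝ),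
    ∀ f : I₂ → ℝ, Tendsto f F₂ (𝓝 0) ↔ Tendsto (Φ f) F₁ (𝓝 0) := by
  obtain ⟨C, hC, h⟩ := exists_block
  have hs : ∀ k : ℕ, (0 : ℝ) < 1 / ((k : ℝ) + 1) := fun k => by positivity
  choose γ h1 h2 using fun k : ℕ => h (1 / ((k : ℝ) + 1)) (hs k)
  have hC0 : 0 < C := by linarith
  refine ⟨blockwise γ, fun f => ?_⟩
  have hval : ∀ n k i, blockwise γ f (n, k, Sum.inl i)
      = γ k (fun b => f (n, k, b)) (Sum.inl i) := fun _ _ _ => rfl
  rw [tendsto_F₁, tendsto_F₂]
  constructor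
  · rintro ⟨hf1, hf2⟩ ε hε
    set t := ε / C with ht
    have ht0 : 0 < t := div_pos hε hC0
    obtain ⟨N, hN⟩ := hf1 t ht0
    choose M hM using fun k => hf2 k t ht0
    obtain ⟨K, hK⟩ : ∃ K : ℕ, ∀ k : ℕ, t < 1 / ((k : ℝ) + 1) → k < K := by
      obtain ⟨K, hK⟩ := exists_nat_gt (1 / t)
      refine ⟨K, fun k hk => ?_⟩
      have hk1 : (0 : ℝ) < (k : ℝ) + 1 := by positivity
      rw [lt_div_iff₀ hk1] at hk
      have h3 : (k : ℝ) + 1 < 1 / t := by
        rw [lt_div_iff₀ ht0]; linarith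
      have h4 : (k : ℝ) < K := by linarith
      exact_mod_cast h4
    refine ⟨max N ((Finset.range K).sup M), fun n hn k i => ?_⟩
    rw [hval]
    have := h1 k t ht0.le (fun b => f (n, k, b)) (fun i => hN n (le_of_max_le_left hn) k i)
      (fun hk => hM k n ((Finset.le_sup (f := M) (Finset.mem_range.2 (hK k hk))).trans
        (le_of_max_le_right hn))) i
    refine this.trans (le_of_eq ?_)
    rw [ht]
    field_simp
  · intro hf
    refine ⟨fun ε hε => ?_, fun k ε hε => ?_⟩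
    · obtain ⟨N, hN⟩ := hf (ε / C) (div_pos hε hC0)
      refine ⟨N, fun n hn k i => ?_⟩
      have := (h2 k (ε / C) (div_pos hε hC0).le (fun b => f (n, k, b))
        (fun i => by rw [← hval]; exact hN n hn k i)).1 i
      refine this.trans (le_of_eq ?_)
      field_simp
    · set t := min ε (1 / ((k : ℝ) + 1) / 2) with ht
      have ht0 : 0 < t := lt_min hε (half_pos (hs k))
      obtain ⟨N, hN⟩ := hf t ht0
      refine ⟨N, fun n hn => ?_⟩
      have := (h2 k t ht0.le (fun b => f (n, k, b))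
        (fun i => by rw [← hval]; exact hN n hn k i)).2
        ((min_le_right _ _).trans_lt (half_lt_self (hs k)))
      exact this.trans (min_le_left _ _)

theorem exists_pair : ∃ φ : (X₂ → ℝ) ≃ₜ (X₁ → ℝ),
    φ '' {f | Continuous f} = {g | Continuous g} := by
  obtain ⟨Φ, hΦ⟩ := exists_index_homeo
  exact exists_pair_homeo Φ hΦ

end Pool.Agent.Lib.MP_4d09b6_gt
end

section

/-! The two spaces are not u-equivalent. -/

set_option autoImplicit false
open Topology Filter

namespace Pool.Agent.Lib.MP_4d09b6_gt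

open PointSpace

/-- the function space with the pointwise uniformity -/
abbrev Cp (X : Type) [TopologicalSpace X] : Type := {f : X → ℝ // Continuous f}

lemma exists_finite_support {X : Type} [TopologicalSpace X] (h : Cp X → ℝ)
    (hh : UniformContinuous h) (ε : ℝ) (hε : 0 < ε) :
    ∃ K : Finset X, ∃ δ > 0, ∀ f g : Cp X, (∀ y ∈ K, |f.1 y - g.1 y| < δ) →
      |h f - h g| < ε := by
  have h1 : {p : Cp X × Cp X | dist (h p.1) (h p.2) < ε} ∈ uniformity (Cp X) :=
    hh (Metric.dist_mem_uniformity hε)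
  rw [uniformity_subtype, Pi.uniformity, mem_comap] at h1
  obtain ⟨t, ht, hts⟩ := h1
  rw [mem_iInf'] at ht
  obtain ⟨I, hI, V, hV, -, hVt, -⟩ := ht
  have h2 : ∀ i : X, ∃ δ > 0, ∀ f g : X → ℝ, |f i - g i| < δ → (f, g) ∈ V i := by
    intro i
    have := hV i
    rw [mem_comap] at this
    obtain ⟨s, hs, hsV⟩ := this
    obtain ⟨δ, hδ, hδs⟩ := Metric.mem_uniformity_dist.1 hs
    refine ⟨δ, hδ, fun f g hfg => hsV ?_⟩
    exact hδs hfg
  choose δ hδ hδV using h2
  classical
  refine ⟨hI.toFinset, ?_⟩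
  have h3 : ∃ d > 0, ∀ i ∈ hI.toFinset, d ≤ δ i := by
    rcases hI.toFinset.eq_empty_or_nonempty with h0 | h0
    · exact ⟨1, one_pos, by simp [h0]⟩
    · refine ⟨hI.toFinset.inf' h0 δ, ?_, fun i hi => Finset.inf'_le _ hi⟩
      rw [gt_iff_lt, Finset.lt_inf'_iff]
      exact fun i _ => hδ i
  obtain ⟨d, hd, hdδ⟩ := h3
  refine ⟨d, hd, fun f g hfg => ?_⟩
  have h4 : ((f : X → ℝ), (g : X → ℝ)) ∈ t := by
    rw [hVt]
    refine Set.mem_iInter₂.2 fun i hi => ?_
    exact hδV i _ _ ((hfg i (hI.mem_toFinset.2 hi)).trans_le (hdδ i (hI.mem_toFinset.2 hi)))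
  have h5 : (f, g) ∈ {p : Cp X × Cp X | dist (h p.1) (h p.2) < ε} := hts h4
  exact h5

lemma exists_chain_bound {X : Type} [TopologicalSpace X] (h : Cp X → ℝ)
    (hh : UniformContinuous h) (N : ℝ) :
    ∃ C : ℝ, ∀ f g : Cp X, (∀ x, |f.1 x - g.1 x| ≤ N) → |h f - h g| ≤ C := by
  obtain ⟨K, δ, hδ, hK⟩ := exists_finite_support h hh 1 one_pos
  have key : ∀ p : ℕ, ∀ f g : Cp X, (∀ x, |f.1 x - g.1 x| ≤ p * (δ / 2)) →
      |h f - h g| ≤ p := by
    intro p
    induction p with
    | zero =>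
      intro f g hfg
      have : f = g := by
        apply Subtype.ext
        funext x
        have := hfg x
        simp only [Nat.cast_zero, zero_mul] at this
        have := abs_nonpos_iff.1 this
        linarith
      simp [this]
    | succ p ih =>
      intro f g hfg
      have hp : (0 : ℝ) < (p : ℝ) + 1 := by positivity
      let f' : Cp X := ⟨fun x => g.1 x + ((p : ℝ) / (p + 1)) * (f.1 x - g.1 x), by
        have := f.2; have := g.2; fun_prop⟩
      have h1 : |h f' - h g| ≤ p := by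
        apply ih
        intro x
        change |g.1 x + ((p : ℝ) / (p + 1)) * (f.1 x - g.1 x) - g.1 x| ≤ _
        rw [add_sub_cancel_left, abs_mul, abs_of_nonneg (by positivity : 0 ≤ (p : ℝ) / (p + 1))]
        have := hfg x
        push_cast at this
        calc (p : ℝ) / (p + 1) * |f.1 x - g.1 x| ≤ (p : ℝ) / (p + 1) * ((p + 1) * (δ / 2)) :=
              mul_le_mul_of_nonneg_left this (by positivity)
          _ = p * (δ / 2) := by field_simp
      have h2 : |h f - h f'| < 1 := by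
        apply hK
        intro x _
        change |f.1 x - (g.1 x + ((p : ℝ) / (p + 1)) * (f.1 x - g.1 x))| < δ
        have e : f.1 x - (g.1 x + ((p : ℝ) / (p + 1)) * (f.1 x - g.1 x))
            = (1 / ((p : ℝ) + 1)) * (f.1 x - g.1 x) := by
          field_simp
          ring
        rw [e, abs_mul, abs_of_pos (by positivity : 0 < 1 / ((p : ℝ) + 1))]
        have := hfg x
        push_cast at this
        calc 1 / ((p : ℝ) + 1) * |f.1 x - g.1 x| ≤ 1 / ((p : ℝ) + 1) * ((p + 1) * (δ / 2)) :=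
              mul_le_mul_of_nonneg_left this (by positivity)
          _ = δ / 2 := by field_simp
          _ < δ := half_lt_self hδ
      calc |h f - h g| = |(h f - h f') + (h f' - h g)| := by ring_nf
        _ ≤ |h f - h f'| + |h f' - h g| := abs_add_le _ _
        _ ≤ 1 + p := add_le_add h2.le h1
        _ = ((p + 1 : ℕ) : ℝ) := by push_cast; ring
  obtain ⟨p, hp⟩ := exists_nat_ge (N / (δ / 2))
  refine ⟨p, fun f g hfg => key p f g fun x => (hfg x).trans ?_⟩
  rwa [div_le_iff₀ (half_pos hδ)] at hp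

/-- eventually zero rows -/
def Good (u : ℕ → ℕ → ℝ) : Prop := ∀ k, ∃ N, ∀ n, N ≤ n → u k n = 0

/-- the function on the second space given by a double sequence -/
def embFun (u : ℕ → ℕ → ℝ) : X₂ → ℝ
  | inf => 0
  | pt (_, _, Sum.inl _) => 0
  | pt (n, k, Sum.inr none) => u k n
  | pt (_, _, Sum.inr (some _)) => 0

lemma continuous_embFun {u : ℕ → ℕ → ℝ} (hu : Good u) : Continuous (embFun u) := by
  rw [continuous_pointSpace_iff]
  change Tendsto _ F₂ (𝓝 0)
  rw [tendsto_F₂]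
  refine ⟨fun ε hε => ⟨0, fun n _ k i => ?_⟩, fun k ε hε => ?_⟩
  · change |(0 : ℝ)| ≤ ε
    simpa using hε.le
  · obtain ⟨N, hN⟩ := hu k
    refine ⟨N, fun n hn => ?_⟩
    change |u k n| ≤ ε
    rw [hN n hn]
    simpa using hε.le

/-- as an element of `C_p` -/
def emb (u : ℕ → ℕ → ℝ) (hu : Good u) : Cp X₂ := ⟨embFun u, continuous_embFun hu⟩

/-- the clopen neighbourhoods of the point `inf` of the first space -/
def W (N : ℕ) : Set X₁ := {x | x = inf ∨ ∃ n k i, N ≤ n ∧ x = pt (n, k, Sum.inl i)}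

lemma W_anti {N M : ℕ} (h : N ≤ M) : W M ⊆ W N := by
  rintro x (hx | ⟨n, k, i, hn, hx⟩)
  · exact Or.inl hx
  · exact Or.inr ⟨n, k, i, h.trans hn, hx⟩

lemma exists_bound_on_W (g : Cp X₁) : ∃ N, ∀ x ∈ W N, |g.1 x| ≤ |g.1 inf| + 1 := by
  have h := (continuous_pointSpace_iff g.1).1 g.2
  rw [Metric.tendsto_nhds] at h
  have h1 := h 1 one_pos
  rw [eventually_F₁] at h1
  obtain ⟨N, hN⟩ := h1
  refine ⟨N, ?_⟩
  rintro x (rfl | ⟨n, k, i, hn, rfl⟩)
  · linarith
  · have h2 := hN n hn k i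
    rw [Real.dist_eq] at h2
    calc |g.1 (pt (n, k, Sum.inl i))|
        = |(g.1 (pt (n, k, Sum.inl i)) - g.1 inf) + g.1 inf| := by ring_nf
      _ ≤ |g.1 (pt (n, k, Sum.inl i)) - g.1 inf| + |g.1 inf| := abs_add_le _ _
      _ ≤ |g.1 inf| + 1 := by linarith

lemma continuous_of_zero_on_W {N : ℕ} {g : X₁ → ℝ} (hg : ∀ x ∈ W N, g x = 0) :
    Continuous g := by
  rw [continuous_pointSpace_iff, hg inf (Or.inl rfl), tendsto_F₁]
  intro ε hε
  refine ⟨N, fun n hn k i => ?_⟩
  rw [hg _ (Or.inr ⟨n, k, i, hn, rfl⟩)]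
  simpa using hε.le

/-- the index `k` of a point of the second space -/
def kIdx : X₂ → ℕ
  | inf => 0
  | pt (_, k, _) => k

/-- the index `n` of a point of the second space -/
def nIdx : X₂ → ℕ
  | inf => 0
  | pt (n, _, _) => n

lemma embFun_congr {u v : ℕ → ℕ → ℝ} (x : X₂) (h : u (kIdx x) = v (kIdx x)) :
    embFun u x = embFun v x := by
  rcases x with _ | ⟨n, k, _ | _ | b⟩
  · rfl
  · rfl
  · exact congrFun h n
  · rfl

lemma embFun_congr' {u v : ℕ → ℕ → ℝ} (x : X₂)
    (h : u (kIdx x) (nIdx x) = v (kIdx x) (nIdx x)) : embFun u x = embFun v x := by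
  rcases x with _ | ⟨n, k, _ | _ | b⟩
  · rfl
  · rfl
  · exact h
  · rfl

theorem claim1 (ψ : Cp X₂ → Cp X₁) (hψ : UniformContinuous ψ) :
    ∃ (N m : ℕ) (u₀ : ℕ → ℕ → ℝ) (_ : Good u₀), ∀ (u : ℕ → ℕ → ℝ) (hu : Good u),
      (∀ k < m, u k = u₀ k) → ∀ x ∈ W N, |(ψ (emb u hu)).1 x| ≤ N := by
  classical
  by_contra hcon
  push Not at hcon
  have hev : ∀ x : X₁, UniformContinuous fun f : Cp X₂ => (ψ f).1 x := fun x =>
    (Pi.uniformContinuous_proj _ x).comp (uniformContinuous_subtype_val.comp hψ)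
  have step : ∀ (i : ℕ) (s : {u : ℕ → ℕ → ℝ // Good u} × ℕ),
      ∃ (s' : {u : ℕ → ℕ → ℝ // Good u} × ℕ) (x : X₁), (∀ k < s.2, s'.1.1 k = s.1.1 k) ∧
        s.2 < s'.2 ∧ x ∈ W (i + 1) ∧ ∀ (u : ℕ → ℕ → ℝ) (hu : Good u),
          (∀ k < s'.2, u k = s'.1.1 k) → (i : ℝ) < |(ψ (emb u hu)).1 x| := by
    intro i s
    obtain ⟨u, hu, hus, x, hx, hgt⟩ := hcon (i + 1) s.2 s.1.1 s.1.2
    obtain ⟨K, δ, hδ, hK⟩ := exists_finite_support _ (hev x) 1 one_pos
    refine ⟨(⟨u, hu⟩, max (s.2 + 1) (K.sup kIdx + 1)), x, hus,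
      lt_of_lt_of_le (Nat.lt_succ_self _) (le_max_left _ _), hx, ?_⟩
    intro v hv hvu
    have h1 : |(ψ (emb v hv)).1 x - (ψ (emb u hu)).1 x| < 1 := by
      apply hK
      intro y hy
      have : (emb v hv).1 y = (emb u hu).1 y := by
        apply embFun_congr
        apply hvu
        exact lt_of_lt_of_le (Nat.lt_succ_of_le (Finset.le_sup hy)) (le_max_right _ _)
      rw [this]
      simpa using hδ
    have h2 : |(ψ (emb u hu)).1 x| ≤ |(ψ (emb v hv)).1 x - (ψ (emb u hu)).1 x|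
        + |(ψ (emb v hv)).1 x| := by
      calc |(ψ (emb u hu)).1 x|
          = |-((ψ (emb v hv)).1 x - (ψ (emb u hu)).1 x) + (ψ (emb v hv)).1 x| := by ring_nf
        _ ≤ |-((ψ (emb v hv)).1 x - (ψ (emb u hu)).1 x)| + |(ψ (emb v hv)).1 x| :=
            abs_add_le _ _
        _ = _ := by rw [abs_neg]
    push_cast at hgt
    linarith
  choose nxt pnt hagree hmono hW hbig using step
  let s : ℕ → {u : ℕ → ℕ → ℝ // Good u} × ℕ := fun i =>
    Nat.rec (⟨fun _ _ => 0, fun _ => ⟨0, fun _ _ => rfl⟩⟩, 0) (fun i s => nxt i s) i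
  have hs : ∀ i, s (i + 1) = nxt i (s i) := fun i => rfl
  have hm : ∀ i, i ≤ (s i).2 := by
    intro i
    induction i with
    | zero => exact Nat.zero_le _
    | succ i ih => rw [hs]; exact lt_of_le_of_lt ih (hmono i (s i))
  have hmm : ∀ i j, i ≤ j → (s i).2 ≤ (s j).2 := by
    intro i j hij
    induction j, hij using Nat.le_induction with
    | base => exact le_rfl
    | succ j _ ih => rw [hs]; exact ih.trans (hmono j (s j)).le
  have hag : ∀ i j, i ≤ j → ∀ k < (s i).2, (s j).1.1 k = (s i).1.1 k := by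
    intro i j hij
    induction j, hij using Nat.le_induction with
    | base => exact fun _ _ => rfl
    | succ j hij ih =>
      intro k hk
      rw [hs, hagree j (s j) k (lt_of_lt_of_le hk (hmm i j hij))]
      exact ih k hk
  let u : ℕ → ℕ → ℝ := fun k => (s (k + 1)).1.1 k
  have hu : Good u := fun k => (s (k + 1)).1.2 k
  have huag : ∀ i, ∀ k < (s i).2, u k = (s i).1.1 k := by
    intro i k hk
    rcases le_total i (k + 1) with h | h
    · exact hag i (k + 1) h k hk
    · exact (hag (k + 1) i h k (lt_of_lt_of_le (Nat.lt_succ_self k) (hm (k + 1)))).symm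
  obtain ⟨N, hN⟩ := exists_bound_on_W (ψ (emb u hu))
  obtain ⟨i, hi⟩ := exists_nat_ge (max (N : ℝ) (|(ψ (emb u hu)).1 inf| + 1))
  have hiN : N ≤ i := by exact_mod_cast (le_max_left _ _).trans hi
  have h1 := hbig i (s i) u hu (fun k hk => by
    have := huag (i + 1) k (by rw [hs]; exact hk)
    rw [hs] at this
    exact this)
  have h2 := hN (pnt i (s i)) (W_anti (by omega) (hW i (s i)))
  have h3 := (le_max_right _ _).trans hi
  linarith

theorem not_uEquiv : ¬ Nonempty (UniformEquiv (Cp X₂) (Cp X₁)) := by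
  classical
  rintro ⟨e⟩
  obtain ⟨N, m, u₀, hu₀, hN⟩ := claim1 e e.uniformContinuous
  -- evaluation functionals
  let c : ℕ → X₂ := fun j => pt (j, m, Sum.inr none)
  have hevφ : ∀ j, UniformContinuous fun g : Cp X₁ => (e.symm g).1 (c j) := fun j =>
    (Pi.uniformContinuous_proj _ (c j)).comp
      (uniformContinuous_subtype_val.comp e.symm.uniformContinuous)
  have hevψ : ∀ x : X₁, UniformContinuous fun f : Cp X₂ => (e f).1 x := fun x =>
    (Pi.uniformContinuous_proj _ x).comp (uniformContinuous_subtype_val.comp e.uniformContinuous)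
  choose C hC using fun j => exists_chain_bound _ (hevφ j) (N : ℝ)
  let r : ℕ → ℝ := fun j => j + C j
  let u : ℕ → ℕ → ℕ → ℝ := fun i k n =>
    if k < m then u₀ k n else if k = m then (if n < i then r n else 0) else 0
  have hu : ∀ i, Good (u i) := by
    intro i k
    by_cases hk : k < m
    · obtain ⟨M, hM⟩ := hu₀ k
      exact ⟨M, fun n hn => by simp [u, hk, hM n hn]⟩
    · refine ⟨i, fun n hn => ?_⟩
      have : ¬ n < i := not_lt.2 hn
      simp [u, hk, this]
  have hagree : ∀ i, ∀ k < m, u i k = u₀ k := by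
    intro i k hk
    funext n
    simp [u, hk]
  let f : ℕ → Cp X₂ := fun i => emb (u i) (hu i)
  let g : ℕ → Cp X₁ := fun i => e (f i)
  have hgW : ∀ i, ∀ x ∈ W N, |(g i).1 x| ≤ N := fun i => hN (u i) (hu i) (hagree i)
  have hfc : ∀ i j, j < i → (f i).1 (c j) = r j := by
    intro i j hij
    change u i m j = r j
    simp [u, hij]
  -- pointwise stabilization of f
  have hstab : ∀ (y : X₂) (i i' : ℕ), nIdx y < i → nIdx y < i' → (f i).1 y = (f i').1 y := by
    intro y i i' h h'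
    apply embFun_congr'
    simp only [u]
    simp [h, h']
  have hlim : ∀ x : X₁, ∃ a : ℝ, Tendsto (fun i => (g i).1 x) atTop (𝓝 a) := by
    intro x
    apply cauchySeq_tendsto_of_complete
    rw [Metric.cauchySeq_iff']
    intro ε hε
    obtain ⟨K, δ, hδ, hK⟩ := exists_finite_support _ (hevψ x) ε hε
    refine ⟨K.sup nIdx + 1, fun i hi => ?_⟩
    rw [Real.dist_eq]
    apply hK
    intro y hy
    rw [hstab y i (K.sup nIdx + 1) (lt_of_lt_of_le (Nat.lt_succ_of_le (Finset.le_sup hy)) hi)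
      (Nat.lt_succ_of_le (Finset.le_sup hy))]
    simpa using hδ
  choose a ha using hlim
  -- the cut off functions
  let g' : ℕ → Cp X₁ := fun i => ⟨fun x => if x ∈ W N then 0 else (g i).1 x,
    continuous_of_zero_on_W (N := N) (fun x hx => by simp [hx])⟩
  let G : Cp X₁ := ⟨fun x => if x ∈ W N then 0 else a x,
    continuous_of_zero_on_W (N := N) (fun x hx => by simp [hx])⟩
  have hG : Tendsto g' atTop (𝓝 G) := by
    rw [tendsto_subtype_rng, tendsto_pi_nhds]
    intro x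
    by_cases hx : x ∈ W N
    · simp [g', G, hx]
    · simpa [g', G, hx] using ha x
  have hφG : ∀ j, Tendsto (fun i => (e.symm (g' i)).1 (c j)) atTop
      (𝓝 ((e.symm G).1 (c j))) := fun j =>
    ((hevφ j).continuous.tendsto G).comp hG
  have hge : ∀ j : ℕ, (j : ℝ) ≤ (e.symm G).1 (c j) := by
    intro j
    refine ge_of_tendsto (hφG j) ?_
    filter_upwards [eventually_gt_atTop j] with i hi
    have h1 := hC j (g' i) (g i) (by
      intro x
      by_cases hx : x ∈ W N
      · have := hgW i x hx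
        simpa [g', hx] using this
      · simp [g', hx])
    have h2 : (e.symm (g i)).1 (c j) = r j := by
      have : e.symm (g i) = f i := e.symm_apply_apply (f i)
      rw [this]
      exact hfc i j hi
    rw [h2] at h1
    have h3 := (abs_le.1 h1).1
    simp only [r] at h3
    linarith
  have hcont := (continuous_pointSpace_iff (e.symm G).1).1 (e.symm G).2
  rw [Metric.tendsto_nhds] at hcont
  have h1 := hcont 1 one_pos
  rw [eventually_F₂] at h1
  obtain ⟨M, hM⟩ := h1.2 m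
  obtain ⟨j, hj⟩ := exists_nat_ge (max (M : ℝ) ((e.symm G).1 inf + 1))
  have hjM : M ≤ j := by exact_mod_cast (le_max_left _ _).trans hj
  have h2 := hM j hjM
  rw [Real.dist_eq] at h2
  have h3 := (abs_lt.1 h2).2
  have h4 := hge j
  have h5 := (le_max_right _ _).trans hj
  have h6 : (e.symm G).1 (c j) = (e.symm G).1 (pt (j, m, Sum.inr none)) := rfl
  rw [h6] at h4
  linarith

end Pool.Agent.Lib.MP_4d09b6_gt
end
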