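import Mathlib

section

/-! A carry recursion that produces homeomorphisms `Z × A^ℕ ≃ Y^ℕ`. -/

set_option autoImplicit false
set_option linter.unusedSectionVars false
open Topology Filter

namespace Pool.Agent.Lib.MP_4d09b6_gt

section Swindle

variable {Z A Y : Type} [MetricSpace Z] [CompleteSpace Z] [TopologicalSpace A]
  [TopologicalSpace Y]

/-- shift of a sequence -/
def shiftBy {X : Type} (n : ℕ) (y : ℕ → X) : ℕ → X := fun k => y (k + n)

lemma shiftBy_zero {X : Type} (y : ℕ → X) : shiftBy 0 y = y := rfl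

lemma continuous_shiftBy {X : Type} [TopologicalSpace X] (n : ℕ) :
    Continuous (shiftBy n : (ℕ → X) → (ℕ → X)) :=
  continuous_pi fun k => continuous_apply (k + n)

/-- finite approximations of the backward carry -/
def backApprox (h : Z × A ≃ₜ Y × Z) (z₀ : Z) : ℕ → (ℕ → Y) → Z
  | 0, _ => z₀
  | n + 1, y => (h.symm (y 0, backApprox h z₀ n (shiftBy 1 y))).1

lemma backApprox_succ (h : Z × A ≃ₜ Y × Z) (z₀ : Z) (n : ℕ) (y : ℕ → Y) :
    backApprox h z₀ (n + 1) y = (h.symm (y 0, backApprox h z₀ n (shiftBy 1 y))).1 := rfl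

lemma continuous_backApprox (h : Z × A ≃ₜ Y × Z) (z₀ : Z) (n : ℕ) :
    Continuous (backApprox h z₀ n) := by
  induction n with
  | zero => exact continuous_const
  | succ n ih =>
    have : backApprox h z₀ (n + 1)
        = fun y => (h.symm (y 0, backApprox h z₀ n (shiftBy 1 y))).1 := rfl
    rw [this]
    exact continuous_fst.comp (h.symm.continuous.comp
      ((continuous_apply 0).prodMk (ih.comp (continuous_shiftBy 1))))

/-- The contraction hypotheses on a carry homeomorphism. -/
structure IsCarry (h : Z × A ≃ₜ Y × Z) : Prop where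
  contr : ∀ y z z', dist (h.symm (y, z)).1 (h.symm (y, z')).1 ≤ (1 / 2) * dist z z'
  bdd : ∀ y z z', dist (h.symm (y, z)).1 (h.symm (y, z')).1 ≤ 1

variable {h : Z × A ≃ₜ Y × Z}

lemma IsCarry.dist_backApprox (hc : IsCarry h) (z₀ : Z) (n : ℕ) (y : ℕ → Y) :
    dist (backApprox h z₀ (n + 1) y) (backApprox h z₀ (n + 2) y) ≤ 1 * (1 / 2 : ℝ) ^ n := by
  induction n generalizing y with
  | zero =>
    simp only [backApprox_succ h z₀ (0 + 1), backApprox_succ h z₀ 0]
    simpa using hc.bdd _ _ _
  | succ n ih =>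
    rw [backApprox_succ h z₀ (n + 1), backApprox_succ h z₀ (n + 2)]
    refine (hc.contr _ _ _).trans ?_
    have := ih (shiftBy 1 y)
    rw [pow_succ]
    linarith

lemma IsCarry.cauchySeq (hc : IsCarry h) (z₀ : Z) (y : ℕ → Y) :
    CauchySeq (fun n => backApprox h z₀ (n + 1) y) :=
  cauchySeq_of_le_geometric (1 / 2) 1 (by norm_num) (fun n => hc.dist_backApprox z₀ n y)

/-- the backward carry -/
noncomputable def back (hc : IsCarry h) (z₀ : Z) (y : ℕ → Y) : Z :=
  (cauchySeq_tendsto_of_complete (hc.cauchySeq z₀ y)).choose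

lemma back_tendsto (hc : IsCarry h) (z₀ : Z) (y : ℕ → Y) :
    Tendsto (fun n => backApprox h z₀ (n + 1) y) atTop (𝓝 (back hc z₀ y)) :=
  (cauchySeq_tendsto_of_complete (hc.cauchySeq z₀ y)).choose_spec

lemma dist_back (hc : IsCarry h) (z₀ : Z) (y : ℕ → Y) (n : ℕ) :
    dist (backApprox h z₀ (n + 1) y) (back hc z₀ y) ≤ 1 * (1 / 2 : ℝ) ^ n / (1 - 1 / 2) :=
  dist_le_of_le_geometric_of_tendsto (1 / 2) 1 (by norm_num)
    (fun n => hc.dist_backApprox z₀ n y) (back_tendsto hc z₀ y) n

lemma continuous_back (hc : IsCarry h) (z₀ : Z) : Continuous (back hc z₀) := by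
  have hu : TendstoUniformly (fun n => backApprox h z₀ (n + 1)) (back hc z₀) atTop := by
    rw [Metric.tendstoUniformly_iff]
    intro ε hε
    have h1 : Tendsto (fun n : ℕ => 1 * (1 / 2 : ℝ) ^ n / (1 - 1 / 2)) atTop (𝓝 0) := by
      have := (tendsto_pow_atTop_nhds_zero_of_lt_one (r := (1 / 2 : ℝ)) (by norm_num)
        (by norm_num)).const_mul 1
      have := this.div_const (1 - 1 / 2 : ℝ)
      simpa using this
    filter_upwards [h1.eventually (gt_mem_nhds hε)] with n hn y
    rw [dist_comm]
    exact (dist_back hc z₀ y n).trans_lt hn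
  exact hu.continuous (Frequently.of_forall fun n => continuous_backApprox h z₀ (n + 1))

lemma back_eq (hc : IsCarry h) (z₀ : Z) (y : ℕ → Y) :
    back hc z₀ y = (h.symm (y 0, back hc z₀ (shiftBy 1 y))).1 := by
  have h1 : Tendsto (fun n => backApprox h z₀ (n + 2) y) atTop (𝓝 (back hc z₀ y)) :=
    (tendsto_add_atTop_iff_nat 1).2 (back_tendsto hc z₀ y)
  have h2 : Tendsto (fun n => backApprox h z₀ (n + 2) y) atTop
      (𝓝 (h.symm (y 0, back hc z₀ (shiftBy 1 y))).1) := by
    have hcont : Continuous fun z : Z => (h.symm (y 0, z)).1 :=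
      continuous_fst.comp (h.symm.continuous.comp (continuous_const.prodMk continuous_id))
    exact (hcont.tendsto _).comp (back_tendsto hc z₀ (shiftBy 1 y))
  exact tendsto_nhds_unique h1 h2

lemma back_unique (hc : IsCarry h) (z₀ : Z) (y : ℕ → Y) (c : ℕ → Z)
    (hcy : ∀ n, c n = (h.symm (y n, c (n + 1))).1) : c 0 = back hc z₀ y := by
  have key : ∀ n (y : ℕ → Y) (c : ℕ → Z), (∀ n, c n = (h.symm (y n, c (n + 1))).1) →
      dist (c 0) (backApprox h z₀ (n + 1) y) ≤ (1 / 2 : ℝ) ^ n := by
    intro n
    induction n with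
    | zero =>
      intro y c hcy
      rw [hcy 0, backApprox_succ]
      simpa using hc.bdd _ _ _
    | succ n ih =>
      intro y c hcy
      rw [hcy 0, backApprox_succ]
      refine (hc.contr _ _ _).trans ?_
      have := ih (shiftBy 1 y) (shiftBy 1 c) (fun n => hcy (n + 1))
      have h0 : shiftBy 1 c 0 = c (0 + 1) := rfl
      rw [h0] at this
      rw [pow_succ]
      linarith
  have h1 : Tendsto (fun n => dist (c 0) (backApprox h z₀ (n + 1) y)) atTop
      (𝓝 (dist (c 0) (back hc z₀ y))) :=
    (continuous_const.dist continuous_id).continuousAt.tendsto.comp (back_tendsto hc z₀ y)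
  have h2 : Tendsto (fun n => dist (c 0) (backApprox h z₀ (n + 1) y)) atTop (𝓝 0) :=
    squeeze_zero (fun _ => dist_nonneg) (fun n => key n y c hcy)
      (tendsto_pow_atTop_nhds_zero_of_lt_one (by norm_num) (by norm_num))
  exact dist_eq_zero.1 (tendsto_nhds_unique h1 h2)

/-- forward carry -/
def fwdCarry (h : Z × A ≃ₜ Y × Z) (p : Z × (ℕ → A)) : ℕ → Z
  | 0 => p.1
  | n + 1 => (h (fwdCarry h p n, p.2 n)).2

/-- forward output -/
def fwdOut (h : Z × A ≃ₜ Y × Z) (p : Z × (ℕ → A)) (n : ℕ) : Y := (h (fwdCarry h p n, p.2 n)).1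

lemma fwd_eq (h : Z × A ≃ₜ Y × Z) (p : Z × (ℕ → A)) (n : ℕ) :
    h (fwdCarry h p n, p.2 n) = (fwdOut h p n, fwdCarry h p (n + 1)) := rfl

lemma fwd_symm (h : Z × A ≃ₜ Y × Z) (p : Z × (ℕ → A)) (n : ℕ) :
    h.symm (fwdOut h p n, fwdCarry h p (n + 1)) = (fwdCarry h p n, p.2 n) := by
  rw [← fwd_eq, h.symm_apply_apply]

lemma continuous_fwdCarry (h : Z × A ≃ₜ Y × Z) (n : ℕ) :
    Continuous (fun p : Z × (ℕ → A) => fwdCarry h p n) := by
  induction n with
  | zero => exact continuous_fst
  | succ n ih =>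
    exact continuous_snd.comp (h.continuous.comp
      (ih.prodMk ((continuous_apply n).comp continuous_snd)))

lemma continuous_fwdOut (h : Z × A ≃ₜ Y × Z) (n : ℕ) :
    Continuous (fun p : Z × (ℕ → A) => fwdOut h p n) :=
  continuous_fst.comp (h.continuous.comp
    ((continuous_fwdCarry h n).prodMk ((continuous_apply n).comp continuous_snd)))

/-- The swindle homeomorphism. -/
noncomputable def swindle (hc : IsCarry h) (z₀ : Z) : Z × (ℕ → A) ≃ₜ (ℕ → Y) where
  toFun p := fwdOut h p
  invFun y := (back hc z₀ y, fun n => (h.symm (y n, back hc z₀ (shiftBy (n + 1) y))).2)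
  left_inv := by
    intro p
    have hb : ∀ n, back hc z₀ (shiftBy n (fwdOut h p)) = fwdCarry h p n := by
      intro n
      have := back_unique hc z₀ (shiftBy n (fwdOut h p)) (fun k => fwdCarry h p (k + n))
        (by
          intro k
          have := fwd_symm h p (k + n)
          have e : k + 1 + n = k + n + 1 := by ring
          simp only [shiftBy, e]
          rw [this])
      simpa using this.symm
    refine Prod.ext ?_ ?_
    · have := hb 0
      rwa [shiftBy_zero] at this
    · funext n
      change (h.symm (fwdOut h p n, back hc z₀ (shiftBy (n + 1) (fwdOut h p)))).2 = p.2 n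
      rw [hb (n + 1), fwd_symm]
  right_inv := by
    intro y
    have hC : ∀ n, fwdCarry h (back hc z₀ y,
        fun n => (h.symm (y n, back hc z₀ (shiftBy (n + 1) y))).2) n
          = back hc z₀ (shiftBy n y) := by
      intro n
      induction n with
      | zero => rfl
      | succ n ih =>
        rw [fwdCarry, ih]
        have e1 : back hc z₀ (shiftBy n y)
            = (h.symm (y n, back hc z₀ (shiftBy (n + 1) y))).1 := by
          rw [back_eq hc z₀ (shiftBy n y)]
          have e2 : shiftBy 1 (shiftBy n y) = shiftBy (n + 1) y := by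
            funext k
            simp only [shiftBy]
            congr 1
            ring
          have e3 : shiftBy n y 0 = y n := by simp [shiftBy]
          rw [e2, e3]
        rw [e1]
        simp
    funext n
    change (h (fwdCarry h _ n, _)).1 = y n
    rw [hC n]
    have e1 : back hc z₀ (shiftBy n y)
        = (h.symm (y n, back hc z₀ (shiftBy (n + 1) y))).1 := by
      rw [back_eq hc z₀ (shiftBy n y)]
      have e2 : shiftBy 1 (shiftBy n y) = shiftBy (n + 1) y := by
        funext k
        simp only [shiftBy]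
        congr 1
        ring
      have e3 : shiftBy n y 0 = y n := by simp [shiftBy]
      rw [e2, e3]
    rw [e1]
    simp
  continuous_toFun := continuous_pi fun n => continuous_fwdOut h n
  continuous_invFun := by
    refine (continuous_back hc z₀).prodMk (continuous_pi fun n => ?_)
    exact continuous_snd.comp (h.symm.continuous.comp
      ((continuous_apply n).prodMk ((continuous_back hc z₀).comp (continuous_shiftBy (n + 1)))))

end Swindle

end Pool.Agent.Lib.MP_4d09b6_gt
end

section

/-! Explicit planar homeomorphisms. -/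

set_option autoImplicit false
open Topology Filter
open scoped NNReal

namespace Pool.Agent.Lib.MP_4d09b6_gt

/-- outgoing carry -/
noncomputable def hV (w x : ℝ≥0) : ℝ≥0 := min x (2 * w * (1 + x) / (1 + w))

/-- forward planar map -/
noncomputable def hFun (p : ℝ≥0 × ℝ≥0) : ℝ × ℝ≥0 :=
  (((p.1 - p.2 / (2 + p.2) : ℝ≥0) : ℝ) - ((p.2 - hV p.1 p.2 : ℝ≥0) : ℝ), hV p.1 p.2)

/-- inverse planar map -/
noncomputable def hInv (q : ℝ × ℝ≥0) : ℝ≥0 × ℝ≥0 :=
  (q.1.toNNReal + q.2 / (2 + 2 * (-q.1).toNNReal + q.2), (-q.1).toNNReal + q.2)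

lemma hV_of_le {w x : ℝ≥0} (hx : x / (2 + x) ≤ w) : hV w x = x := by
  unfold hV
  apply min_eq_left
  rw [le_div_iff₀ (by positivity)]
  rw [div_le_iff₀ (by positivity)] at hx
  rw [← NNReal.coe_le_coe] at hx ⊢
  push_cast at hx ⊢
  nlinarith [w.coe_nonneg, x.coe_nonneg]

lemma hV_of_ge {w x : ℝ≥0} (hx : w ≤ x / (2 + x)) : hV w x = 2 * w * (1 + x) / (1 + w) := by
  unfold hV
  apply min_eq_right
  rw [div_le_iff₀ (by positivity)]
  rw [le_div_iff₀ (by positivity)] at hx
  rw [← NNReal.coe_le_coe] at hx ⊢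
  push_cast at hx ⊢
  nlinarith [w.coe_nonneg, x.coe_nonneg]

lemma hV_le (w x : ℝ≥0) : hV w x ≤ x := min_le_left _ _

lemma hInv_hFun (p : ℝ≥0 × ℝ≥0) : hInv (hFun p) = p := by
  obtain ⟨w, x⟩ := p
  rcases le_total (x / (2 + x)) w with hx | hx
  · have hv := hV_of_le hx
    have h1 : hFun (w, x) = (((w - x / (2 + x) : ℝ≥0) : ℝ), x) := by
      simp [hFun, hv]
    rw [h1]
    unfold hInv
    have h2 : (-((w - x / (2 + x) : ℝ≥0) : ℝ)).toNNReal = 0 := by
      rw [Real.toNNReal_eq_zero]
      simp
    simp only [h2, Real.toNNReal_coe]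
    refine Prod.ext ?_ ?_
    · simp [tsub_add_cancel_of_le hx]
    · simp
  · have hv := hV_of_ge hx
    have h0 : w - x / (2 + x) = 0 := tsub_eq_zero_of_le hx
    have h1 : hFun (w, x) = (-((x - hV w x : ℝ≥0) : ℝ), hV w x) := by
      simp [hFun, h0]
    rw [h1]
    unfold hInv
    have h2 : (-((x - hV w x : ℝ≥0) : ℝ)).toNNReal = 0 := by
      rw [Real.toNNReal_eq_zero]
      simp
    simp only [h2, neg_neg, Real.toNNReal_coe]
    refine Prod.ext ?_ ?_
    · simp only [zero_add]
      apply NNReal.coe_injective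
      push_cast [NNReal.coe_sub (hV_le w x)]
      rw [hv]
      push_cast
      have hw : (0 : ℝ) < 1 + w := by positivity
      have hx' : (0 : ℝ) < 1 + x := by positivity
      have : (2 : ℝ) + 2 * (x - 2 * w * (1 + x) / (1 + w)) + 2 * w * (1 + x) / (1 + w)
          = 2 * (1 + x) / (1 + w) := by
        field_simp
        ring
      rw [this]
      field_simp
    · simp [tsub_add_cancel_of_le (hV_le w x)]

lemma hFun_hInv (q : ℝ × ℝ≥0) : hFun (hInv q) = q := by
  obtain ⟨y, v⟩ := q
  rcases le_total 0 y with hy | hy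
  · have h1 : (-y).toNNReal = 0 := by simpa using hy
    have h2 : hInv (y, v) = (y.toNNReal + v / (2 + v), v) := by
      simp [hInv, h1]
    rw [h2]
    have hv : hV (y.toNNReal + v / (2 + v)) v = v := hV_of_le (by simp)
    unfold hFun
    simp only [hv]
    refine Prod.ext ?_ rfl
    simp [hy]
  · have h1 : y.toNNReal = 0 := by simpa using hy
    obtain ⟨r, hr⟩ : ∃ r : ℝ≥0, y = -(r : ℝ) := ⟨(-y).toNNReal, by
      rw [Real.coe_toNNReal _ (by linarith)]; ring⟩
    subst hr
    have h2 : hInv (-(r : ℝ), v) = (v / (2 + 2 * r + v), r + v) := by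
      simp [hInv]
    rw [h2]
    have hle : v / (2 + 2 * r + v) ≤ (r + v) / (2 + (r + v)) := by
      rw [div_le_div_iff₀ (by positivity) (by positivity)]
      rw [← NNReal.coe_le_coe]
      push_cast
      nlinarith [r.coe_nonneg, v.coe_nonneg, mul_nonneg r.coe_nonneg v.coe_nonneg,
        mul_nonneg r.coe_nonneg r.coe_nonneg]
    have hv : hV (v / (2 + 2 * r + v)) (r + v) = v := by
      rw [hV_of_ge hle]
      apply NNReal.coe_injective
      push_cast
      have h3 : (0 : ℝ) < 2 + 2 * r + v := by positivity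
      have h4 : (0 : ℝ) < 1 + r + v := by positivity
      have h5 : (1 : ℝ) + v / (2 + 2 * r + v) = 2 * (1 + r + v) / (2 + 2 * r + v) := by
        field_simp
        ring
      rw [h5]
      field_simp
      ring
    unfold hFun
    simp only [hv]
    refine Prod.ext ?_ rfl
    simp [tsub_eq_zero_of_le hle]

lemma continuous_hV : Continuous fun p : ℝ≥0 × ℝ≥0 => hV p.1 p.2 := by
  unfold hV
  refine continuous_snd.min ?_
  refine Continuous.div (by fun_prop) (by fun_prop) (fun p => ?_)
  positivity

lemma continuous_hFun : Continuous hFun := by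
  unfold hFun
  refine Continuous.prodMk ?_ continuous_hV
  refine Continuous.sub ?_ ?_
  · refine NNReal.continuous_coe.comp ?_
    refine continuous_fst.sub ?_
    exact Continuous.div (by fun_prop) (by fun_prop) (fun p => by positivity)
  · exact NNReal.continuous_coe.comp (continuous_snd.sub continuous_hV)

lemma continuous_hInv : Continuous hInv := by
  unfold hInv
  refine Continuous.prodMk ?_ ?_
  · refine Continuous.add (continuous_real_toNNReal.comp continuous_fst) ?_
    refine Continuous.div (by fun_prop) (by fun_prop) (fun p => ?_)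
    positivity
  · exact (continuous_real_toNNReal.comp continuous_fst.neg).add continuous_snd

/-- the planar homeomorphism from the quadrant to the half plane -/
noncomputable def hHomeo : ℝ≥0 × ℝ≥0 ≃ₜ ℝ × ℝ≥0 where
  toFun := hFun
  invFun := hInv
  left_inv := hInv_hFun
  right_inv := hFun_hInv
  continuous_toFun := continuous_hFun
  continuous_invFun := continuous_hInv

lemma hHomeo_symm (q : ℝ × ℝ≥0) : hHomeo.symm q
    = (q.1.toNNReal + q.2 / (2 + 2 * (-q.1).toNNReal + q.2), (-q.1).toNNReal + q.2) := rfl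

lemma isCarry_hHomeo : IsCarry hHomeo where
  contr := by
    intro y z z'
    simp only [hHomeo_symm]
    rw [NNReal.dist_eq, NNReal.dist_eq]
    push_cast
    set c : ℝ := 2 + 2 * ((-y).toNNReal : ℝ) with hc
    have hc2 : 2 ≤ c := by
      have := ((-y).toNNReal).coe_nonneg
      rw [hc]; linarith
    have hz := z.coe_nonneg
    have hz' := z'.coe_nonneg
    have e : ((y.toNNReal : ℝ) + z / (c + z)) - ((y.toNNReal : ℝ) + z' / (c + z'))
        = c * (z - z') / ((c + z) * (c + z')) := by
      field_simp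
      ring
    rw [e, abs_div, abs_mul, abs_of_pos (by linarith : (0 : ℝ) < c),
      abs_of_pos (by positivity : (0 : ℝ) < (c + z) * (c + z')),
      div_le_iff₀ (by positivity)]
    have h1 : c ≤ 1 / 2 * ((c + z) * (c + z')) := by nlinarith [mul_nonneg hz hz']
    have h2 := abs_nonneg ((z : ℝ) - z')
    nlinarith
  bdd := by
    intro y z z'
    simp only [hHomeo_symm]
    rw [NNReal.dist_eq]
    push_cast
    set c : ℝ := 2 + 2 * ((-y).toNNReal : ℝ) with hc
    have hc2 : 2 ≤ c := by
      have := ((-y).toNNReal).coe_nonneg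
      rw [hc]; linarith
    have hz := z.coe_nonneg
    have hz' := z'.coe_nonneg
    have h1 : (z : ℝ) / (c + z) ≤ 1 := by
      rw [div_le_one (by positivity)]; linarith
    have h1' : (z' : ℝ) / (c + z') ≤ 1 := by
      rw [div_le_one (by positivity)]; linarith
    have h2 : 0 ≤ (z : ℝ) / (c + z) := by positivity
    have h2' : 0 ≤ (z' : ℝ) / (c + z') := by positivity
    rw [abs_le]
    constructor <;> linarith

end Pool.Agent.Lib.MP_4d09b6_gt
end

section

/-! Unknotting of compact sets in `ℝ^ℕ` with uniformly bounded displacement. -/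

set_option autoImplicit false
open Topology Filter

namespace Pool.Agent.Lib.MP_4d09b6_gt

lemma tietze {K : Type} [TopologicalSpace K] [CompactSpace K] {A B : Type} [Countable B]
    (φ : K → (B → ℝ)) (hφ : Continuous φ) (hinj : Function.Injective φ)
    (F : K → (A → ℝ)) (hF : Continuous F) (R : ℝ) (hR : 0 ≤ R) (hFR : ∀ k a, |F k a| ≤ R) :
    ∃ s : (B → ℝ) → (A → ℝ), Continuous s ∧ (∀ k, s (φ k) = F k) ∧ ∀ o a, |s o a| ≤ R := by
  have he : IsClosedEmbedding φ := hφ.isClosedEmbedding hinj
  have h1 : ∀ a : A, ∃ g : C(B → ℝ, ℝ), (∀ o, g o ∈ Set.Icc (-R) R) ∧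
      g ∘ φ = (⟨fun k => F k a, (continuous_apply a).comp hF⟩ : C(K, ℝ)) := by
    intro a
    apply ContinuousMap.exists_extension_forall_mem_of_isClosedEmbedding
    · intro k
      exact abs_le.1 (hFR k a)
    · exact ⟨0, by constructor <;> linarith⟩
    · exact he
  choose g hg1 hg2 using h1
  refine ⟨fun o a => g a o, continuous_pi fun a => (g a).continuous, ?_, ?_⟩
  · intro k
    funext a
    exact congrFun (hg2 a) k
  · intro o a
    exact abs_le.2 (hg1 a o)

variable {A B : Type}

/-- shear in the left coordinates -/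
def shearL (s : (B → ℝ) → (A → ℝ)) (hs : Continuous s) : (A ⊕ B → ℝ) ≃ₜ (A ⊕ B → ℝ) where
  toFun u := Sum.elim (fun a => u (Sum.inl a) + s (fun b => u (Sum.inr b)) a)
    (fun b => u (Sum.inr b))
  invFun u := Sum.elim (fun a => u (Sum.inl a) - s (fun b => u (Sum.inr b)) a)
    (fun b => u (Sum.inr b))
  left_inv u := by
    funext i
    rcases i with a | b <;> simp
  right_inv u := by
    funext i
    rcases i with a | b <;> simp
  continuous_toFun := by
    refine continuous_pi fun i => ?_
    rcases i with a | b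
    · exact (continuous_apply (Sum.inl a)).add ((continuous_apply a).comp
        (hs.comp (continuous_pi fun b => continuous_apply (Sum.inr b))))
    · exact continuous_apply (Sum.inr b)
  continuous_invFun := by
    refine continuous_pi fun i => ?_
    rcases i with a | b
    · exact (continuous_apply (Sum.inl a)).sub ((continuous_apply a).comp
        (hs.comp (continuous_pi fun b => continuous_apply (Sum.inr b))))
    · exact continuous_apply (Sum.inr b)

/-- shear in the right coordinates -/
def shearR (s : (A → ℝ) → (B → ℝ)) (hs : Continuous s) : (A ⊕ B → ℝ) ≃ₜ (A ⊕ B → ℝ) where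
  toFun u := Sum.elim (fun a => u (Sum.inl a))
    (fun b => u (Sum.inr b) + s (fun a => u (Sum.inl a)) b)
  invFun u := Sum.elim (fun a => u (Sum.inl a))
    (fun b => u (Sum.inr b) - s (fun a => u (Sum.inl a)) b)
  left_inv u := by
    funext i
    rcases i with a | b <;> simp
  right_inv u := by
    funext i
    rcases i with a | b <;> simp
  continuous_toFun := by
    refine continuous_pi fun i => ?_
    rcases i with a | b
    · exact continuous_apply (Sum.inl a)
    · exact (continuous_apply (Sum.inr b)).add ((continuous_apply b).comp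
        (hs.comp (continuous_pi fun a => continuous_apply (Sum.inl a))))
  continuous_invFun := by
    refine continuous_pi fun i => ?_
    rcases i with a | b
    · exact continuous_apply (Sum.inl a)
    · exact (continuous_apply (Sum.inr b)).sub ((continuous_apply b).comp
        (hs.comp (continuous_pi fun a => continuous_apply (Sum.inl a))))

/-- displacement bound -/
def DispLE {ι : Type} (H : (ι → ℝ) ≃ₜ (ι → ℝ)) (C : ℝ) : Prop := ∀ u i, |H u i - u i| ≤ C

lemma DispLE.trans {ι : Type} {H H' : (ι → ℝ) ≃ₜ (ι → ℝ)} {C C' : ℝ} (h : DispLE H C)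
    (h' : DispLE H' C') : DispLE (H.trans H') (C + C') := by
  intro u i
  have h1 := h u i
  have h2 := h' (H u) i
  change |H' (H u) i - u i| ≤ C + C'
  calc |H' (H u) i - u i| = |(H' (H u) i - H u i) + (H u i - u i)| := by ring_nf
    _ ≤ |H' (H u) i - H u i| + |H u i - u i| := abs_add_le _ _
    _ ≤ C + C' := by linarith

lemma dispLE_shearL (s : (B → ℝ) → (A → ℝ)) (hs : Continuous s) (C : ℝ) (hC : 0 ≤ C)
    (h : ∀ o a, |s o a| ≤ C) : DispLE (shearL s hs) C := by
  intro u i
  rcases i with a | b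
  · change |u (Sum.inl a) + s (fun b => u (Sum.inr b)) a - u (Sum.inl a)| ≤ C
    rw [add_sub_cancel_left]
    exact h _ _
  · change |u (Sum.inr b) - u (Sum.inr b)| ≤ C
    simpa using hC

lemma dispLE_shearR (s : (A → ℝ) → (B → ℝ)) (hs : Continuous s) (C : ℝ) (hC : 0 ≤ C)
    (h : ∀ o b, |s o b| ≤ C) : DispLE (shearR s hs) C := by
  intro u i
  rcases i with a | b
  · change |u (Sum.inl a) - u (Sum.inl a)| ≤ C
    simpa using hC
  · change |u (Sum.inr b) + s (fun a => u (Sum.inl a)) b - u (Sum.inr b)| ≤ C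
    rw [add_sub_cancel_left]
    exact h _ _

/-- the noise tolerant code -/
noncomputable def code (C : ℝ) (v : A → ℝ) : A × ℚ × ℚ → ℝ :=
  fun i => C * max 0 (min 1 ((v i.1 - i.2.1) / (i.2.2 - i.2.1)))

lemma continuous_code (C : ℝ) : Continuous (code C : (A → ℝ) → _) := by
  refine continuous_pi fun i => ?_
  unfold code
  have : Continuous fun v : A → ℝ => v i.1 := continuous_apply i.1
  fun_prop

lemma code_bound {C : ℝ} (hC : 0 ≤ C) (v : A → ℝ) (i : A × ℚ × ℚ) : |code C v i| ≤ C := by
  unfold code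
  rw [abs_mul, abs_of_nonneg hC]
  have h0 : 0 ≤ max 0 (min 1 ((v i.1 - i.2.1) / ((i.2.2 : ℝ) - i.2.1))) := le_max_left _ _
  have h1 : max 0 (min 1 ((v i.1 - i.2.1) / ((i.2.2 : ℝ) - i.2.1))) ≤ 1 :=
    max_le zero_le_one (min_le_left _ _)
  rw [abs_of_nonneg h0]
  nlinarith

lemma code_sep {C : ℝ} {v v' : A → ℝ} (a : A) (h : v a < v' a) :
    ∃ i, code C v i = 0 ∧ code C v' i = C := by
  obtain ⟨p, hp1, hp2⟩ := exists_rat_btwn h
  obtain ⟨q, hq1, hq2⟩ := exists_rat_btwn hp2
  have hpq : (0 : ℝ) < q - p := by linarith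
  refine ⟨(a, p, q), ?_, ?_⟩
  · unfold code
    have : (v a - p) / ((q : ℝ) - p) ≤ 0 := by
      apply div_nonpos_of_nonpos_of_nonneg <;> linarith
    simp only
    rw [min_eq_right (by linarith), max_eq_left this, mul_zero]
  · unfold code
    have : 1 ≤ (v' a - p) / ((q : ℝ) - p) := by
      rw [one_le_div hpq]; linarith
    simp only
    rw [min_eq_left this]
    simp

lemma code_inj {K : Type} {R : ℝ} (f : K → (A ⊕ (A × ℚ × ℚ) → ℝ))
    (hf : Function.Injective f) (hR : ∀ k i, |f k i| ≤ R) :
    Function.Injective fun k => fun i : A × ℚ × ℚ =>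
      f k (Sum.inr i) + code (2 * R + 1) (fun a => f k (Sum.inl a)) i := by
  intro k k' hkk
  have key : ∀ k k', (fun i : A × ℚ × ℚ =>
      f k (Sum.inr i) + code (2 * R + 1) (fun a => f k (Sum.inl a)) i) = (fun i : A × ℚ × ℚ =>
      f k' (Sum.inr i) + code (2 * R + 1) (fun a => f k' (Sum.inl a)) i) →
      ∀ a, ¬ f k (Sum.inl a) < f k' (Sum.inl a) := by
    intro k k' h a hlt
    obtain ⟨i, h1, h2⟩ := code_sep (C := 2 * R + 1) (v := fun a => f k (Sum.inl a))
      (v' := fun a => f k' (Sum.inl a)) a hlt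
    have h3 := congrFun h i
    simp only [h1, h2] at h3
    have h4 := abs_le.1 (hR k (Sum.inr i))
    have h5 := abs_le.1 (hR k' (Sum.inr i))
    linarith
  have hl : ∀ a, f k (Sum.inl a) = f k' (Sum.inl a) := fun a =>
    le_antisymm (not_lt.1 (key _ _ hkk.symm a)) (not_lt.1 (key _ _ hkk a))
  apply hf
  funext i
  rcases i with a | b
  · exact hl a
  · have h3 := congrFun hkk b
    have h4 : (fun a => f k (Sum.inl a)) = fun a => f k' (Sum.inl a) := funext hl
    simp only [h4] at h3
    linarith

theorem unknot {K : Type} [TopologicalSpace K] [CompactSpace K] [Countable A] {R : ℝ} (hR0 : 0 ≤ R)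
    (f g : K → (A ⊕ (A × ℚ × ℚ) → ℝ)) (ψ : K → (A → ℝ))
    (hf : Continuous f) (hg : Continuous g) (hψ : Continuous ψ)
    (hfi : Function.Injective f) (hgi : Function.Injective g) (hψi : Function.Injective ψ)
    (hfR : ∀ k i, |f k i| ≤ R) (hgR : ∀ k i, |g k i| ≤ R) (hψR : ∀ k i, |ψ k i| ≤ R) :
    ∃ H : (A ⊕ (A × ℚ × ℚ) → ℝ) ≃ₜ (A ⊕ (A × ℚ × ℚ) → ℝ), (∀ k, H (f k) = g k) ∧
      ∃ C, DispLE H C := by
  set φf : K → (A × ℚ × ℚ → ℝ) := fun k => fun i : A × ℚ × ℚ =>
      f k (Sum.inr i) + code (2 * R + 1) (fun a => f k (Sum.inl a)) i with hφf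
  set φg : K → (A × ℚ × ℚ → ℝ) := fun k => fun i : A × ℚ × ℚ =>
      g k (Sum.inr i) + code (2 * R + 1) (fun a => g k (Sum.inl a)) i with hφg
  have hφfi : Function.Injective φf := code_inj f hfi hfR
  have hφgi : Function.Injective φg := code_inj g hgi hgR
  have hcont : ∀ f : K → (A ⊕ (A × ℚ × ℚ) → ℝ), Continuous f → Continuous fun k =>
      fun i : A × ℚ × ℚ => f k (Sum.inr i) + code (2 * R + 1) (fun a => f k (Sum.inl a)) i := by
    intro f hf
    refine continuous_pi fun i => ?_
    refine ((continuous_apply (Sum.inr i)).comp hf).add ((continuous_apply i).comp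
      ((continuous_code _).comp (continuous_pi fun a => (continuous_apply (Sum.inl a)).comp hf)))
  have hφfc : Continuous φf := hcont f hf
  have hφgc : Continuous φg := hcont g hg
  have hC0 : 0 ≤ 2 * R + 1 := by linarith
  have hφfR : ∀ k i, |φf k i| ≤ 3 * R + 1 := by
    intro k i
    calc |φf k i| ≤ |f k (Sum.inr i)| + |code (2 * R + 1) (fun a => f k (Sum.inl a)) i| :=
          abs_add_le _ _
      _ ≤ 3 * R + 1 := by linarith [hfR k (Sum.inr i), code_bound hC0 (fun a => f k (Sum.inl a)) i]
  have hφgR : ∀ k i, |φg k i| ≤ 3 * R + 1 := by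
    intro k i
    calc |φg k i| ≤ |g k (Sum.inr i)| + |code (2 * R + 1) (fun a => g k (Sum.inl a)) i| :=
          abs_add_le _ _
      _ ≤ 3 * R + 1 := by linarith [hgR k (Sum.inr i), code_bound hC0 (fun a => g k (Sum.inl a)) i]
  have hsub : ∀ {x y c d : ℝ}, |x| ≤ c → |y| ≤ d → |x - y| ≤ c + d := by
    intro x y c d hx hy
    have := abs_le.1 hx
    have := abs_le.1 hy
    rw [abs_le]
    constructor <;> linarith
  obtain ⟨s2, hs2c, hs2, hs2b⟩ := tietze φf hφfc hφfi
    (fun k => fun a => ψ k a - f k (Sum.inl a))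
    (continuous_pi fun a => ((continuous_apply a).comp hψ).sub
      ((continuous_apply (Sum.inl a)).comp hf)) (R + R) (by linarith)
    (fun k a => hsub (hψR k a) (hfR k _))
  obtain ⟨s3, hs3c, hs3, hs3b⟩ := tietze ψ hψ hψi
    (fun k => fun i => φg k i - φf k i)
    (continuous_pi fun i => ((continuous_apply i).comp hφgc).sub
      ((continuous_apply i).comp hφfc)) ((3 * R + 1) + (3 * R + 1)) (by linarith)
    (fun k i => hsub (hφgR k i) (hφfR k i))
  obtain ⟨s4, hs4c, hs4, hs4b⟩ := tietze φg hφgc hφgi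
    (fun k => fun a => g k (Sum.inl a) - ψ k a)
    (continuous_pi fun a => ((continuous_apply (Sum.inl a)).comp hg).sub
      ((continuous_apply a).comp hψ)) (R + R) (by linarith)
    (fun k a => hsub (hgR k _) (hψR k a))
  have hcodec : Continuous (code (2 * R + 1) : (A → ℝ) → _) := continuous_code _
  have hncodec : Continuous (fun v : A → ℝ => fun i => - code (2 * R + 1) v i) :=
    continuous_pi fun i => ((continuous_apply i).comp hcodec).neg
  refine ⟨((((shearR (code (2 * R + 1)) hcodec).trans (shearL s2 hs2c)).trans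
    (shearR s3 hs3c)).trans (shearL s4 hs4c)).trans (shearR _ hncodec), ?_, _,
    ((((dispLE_shearR _ hcodec _ hC0 (code_bound hC0)).trans
      (dispLE_shearL s2 hs2c _ (by linarith) hs2b)).trans
      (dispLE_shearR s3 hs3c _ (by linarith) hs3b)).trans
      (dispLE_shearL s4 hs4c _ (by linarith) hs4b)).trans
      (dispLE_shearR _ hncodec (2 * R + 1) hC0
        (fun o b => by rw [abs_neg]; exact code_bound hC0 o b))⟩
  intro k
  simp only [Homeomorph.trans_apply]
  have e1 : shearR (code (2 * R + 1)) hcodec (f k)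
      = Sum.elim (fun a => f k (Sum.inl a)) (φf k) := rfl
  have e2 : shearL s2 hs2c (Sum.elim (fun a => f k (Sum.inl a)) (φf k))
      = Sum.elim (ψ k) (φf k) := by
    funext i
    rcases i with a | b
    · change f k (Sum.inl a) + s2 (φf k) a = ψ k a
      rw [hs2 k]; ring
    · rfl
  have e3 : shearR s3 hs3c (Sum.elim (ψ k) (φf k)) = Sum.elim (ψ k) (φg k) := by
    funext i
    rcases i with a | b
    · rfl
    · change φf k b + s3 (ψ k) b = φg k b
      rw [hs3 k]; ring
  have e4 : shearL s4 hs4c (Sum.elim (ψ k) (φg k))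
      = Sum.elim (fun a => g k (Sum.inl a)) (φg k) := by
    funext i
    rcases i with a | b
    · change ψ k a + s4 (φg k) a = g k (Sum.inl a)
      rw [hs4 k]; ring
    · rfl
  rw [e1, e2, e3, e4]
  funext i
  rcases i with a | b
  · rfl
  · change φg k b + - code (2 * R + 1) (fun a => g k (Sum.inl a)) b = g k (Sum.inr b)
    simp only [hφg]
    ring

end Pool.Agent.Lib.MP_4d09b6_gt
end
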